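import Mathlib
import Pool.Agent.H48.UP.Classical
import Pool.Agent.H52.Unc.Defs

/-!
# Cor: the choice of the scale `N` in the density theorem
-/

set_option autoImplicit false

open Complex

namespace Pool.Agent.H52.UV

open Pool.Agent.H52.Unc

private theorem three_half {y : ℝ} (hy : 0 < y) : y ^ (3 / 2 : ℝ) = y * √y := by
  rw [Real.sqrt_eq_rpow, ← Real.rpow_one_add' hy.le (by norm_num)]
  norm_num

private theorem log_le_two_sqrt {x : ℝ} (hx : 0 ≤ x) : Real.log (1 + x) ≤ 2 * √x := by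
  have h1 : 1 + x ≤ (1 + √x) ^ 2 := by
    have := Real.sq_sqrt hx
    nlinarith [Real.sqrt_nonneg x]
  have h2 : Real.log (1 + x) ≤ Real.log ((1 + √x) ^ 2) := Real.log_le_log (by linarith) h1
  rw [Real.log_pow] at h2
  have h3 : Real.log (1 + √x) ≤ √x := by
    have := Real.log_le_sub_one_of_pos (show 0 < 1 + √x by positivity)
    linarith
  push_cast at h2
  linarith

/-- the scale -/
private theorem pick {c C1 z y W W' v : ℝ} (hc : 0 < c) (hC1 : 1 ≤ C1) (hz : 0 < z)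
    (hy : 0 < y) (hy1 : y ≤ 1) (hW : 1 ≤ W) (hlW : 1 ≤ Real.log W) (hW' : W' ≤ 2 * W)
    (hyz : z ≤ y * W') (hv1 : 1 ≤ v) (hv2 : 2 * C1 * Real.log W ≤ v)
    (hv3 : 32 * C1 ^ 2 / z ≤ v) :
    C1 * Real.log (W + v / y) ≤ v := by
  have hv0 : 0 < v := by linarith
  have h1 : v / y ≤ 2 * v / z * W := by
    rw [div_le_iff₀ hy]
    have h2 : z ≤ y * (2 * W) := hyz.trans (mul_le_mul_of_nonneg_left hW' hy.le)
    calc v = v / z * z := by field_simp
      _ ≤ v / z * (y * (2 * W)) := mul_le_mul_of_nonneg_left h2 (by positivity)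
      _ = _ := by ring
  have h2 : W + v / y ≤ W * (1 + 2 * v / z) := by
    calc W + v / y ≤ W + 2 * v / z * W := by linarith
      _ = _ := by ring
  have h3 : Real.log (W + v / y) ≤ Real.log W + Real.log (1 + 2 * v / z) := by
    rw [← Real.log_mul (by linarith) (by positivity)]
    exact Real.log_le_log (by positivity) h2
  have h4 : Real.log (1 + 2 * v / z) ≤ 2 * √(2 * v / z) := log_le_two_sqrt (by positivity)
  have h5 : C1 * (2 * √(2 * v / z)) ≤ v / 2 := by
    have h6 : √(2 * v / z) ≤ v / (4 * C1) := by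
      rw [Real.sqrt_le_left (by positivity), div_pow, div_le_div_iff₀ hz (by positivity)]
      rw [div_le_iff₀ hz] at hv3
      calc 2 * v * (4 * C1) ^ 2 = v * (32 * C1 ^ 2) := by ring
        _ ≤ v * (v * z) := mul_le_mul_of_nonneg_left hv3 hv0.le
        _ = _ := by ring
    calc C1 * (2 * √(2 * v / z)) ≤ C1 * (2 * (v / (4 * C1))) := by gcongr
      _ = v / 2 := by field_simp; ring
  calc C1 * Real.log (W + v / y) ≤ C1 * (Real.log W + 2 * √(2 * v / z)) := by gcongr; linarith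
    _ = C1 * Real.log W + C1 * (2 * √(2 * v / z)) := by ring
    _ ≤ v := by linarith

theorem cor {ε K c C1 : ℝ} (hε : 0 < ε) (hε1 : ε ≤ 1 / 4) (hc : 0 < c) (hC1 : 1 ≤ C1)
    (h : ∀ σ N T H : ℝ, 1 / 2 + ε ≤ σ → σ < 1 → 1 ≤ N → C1 ≤ T → 0 ≤ H →
        Real.log (T + H + N) ^ C1 ≤ N ^ (1 - σ) →
        H ≤ N ^ max (max 1 (4 * σ - 2 - ε)) (c / √(1 - σ)) →
        ∀ S : Finset ℂ, (∀ ρ ∈ S, riemannZeta ρ = 0 ∧ σ ≤ ρ.re ∧ T ≤ ρ.im ∧ ρ.im ≤ T + H) →
        ((∀ ρ ∈ S, (rz (K * (1 - σ)) (ρ.re - ε * (1 - σ)) ρ : ℝ) < c * (1 - σ) * Real.log N) ∨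
          (∀ s : ℂ, σ - 2 * ε * (1 - σ) ≤ s.re → T - C1 ≤ s.im → s.im ≤ T + H + C1 →
            ‖riemannZeta s‖ ≤ N ^ (c * (1 - σ)))) →
        ∑ ρ ∈ S, (analyticOrderNatAt riemannZeta ρ : ℝ) ≤ N ^ ((2 + ε) * (1 - σ))) :
    ∃ C : ℝ, 1 ≤ C ∧ ∀ (σ T H : ℝ) (n : ℕ), 1 / 2 + ε ≤ σ → σ < 1 → C ≤ T → 1 ≤ H →
      C * Real.log (Real.log (T + H)) ≤ n →
      ∀ S : Finset ℂ, (∀ ρ ∈ S, riemannZeta ρ = 0 ∧ σ ≤ ρ.re ∧ T ≤ ρ.im ∧ ρ.im ≤ T + H ∧
        rz (K * (1 - σ)) (ρ.re - ε * (1 - σ)) ρ ≤ n) →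
      ∑ ρ ∈ S, (analyticOrderNatAt riemannZeta ρ : ℝ) ≤
        Real.exp (C * n) * H ^ (C * (1 - σ) ^ (3 / 2 : ℝ)) := by
  obtain ⟨z, hz, hcl⟩ := Pool.Agent.H48.UP.classical
  have p1 : 0 < c * C1 := by positivity
  have p2 : 0 < 32 * c * C1 ^ 2 / z := by positivity
  have p3 : 0 < 5 / c := by positivity
  have p4 : 0 < Real.exp (Real.exp 1) := Real.exp_pos _
  refine ⟨C1 + 2 * (c * C1) + 32 * c * C1 ^ 2 / z + c + Real.exp (Real.exp 1) + 5 / c,
    by linarith, ?_⟩
  set C : ℝ := C1 + 2 * (c * C1) + 32 * c * C1 ^ 2 / z + c + Real.exp (Real.exp 1) + 5 / c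
    with hC
  intro σ T H n hσ hσ1 hT hH hn S hS
  have hCpos : 0 < C := by rw [hC]; linarith
  rcases S.eq_empty_or_nonempty with hE | ⟨ρ₀, hρ₀⟩
  · rw [hE, Finset.sum_empty]
    have := Real.exp_pos (C * n)
    have hH0 : 0 < H := by linarith
    positivity
  obtain ⟨y, hy⟩ : ∃ y : ℝ, y = 1 - σ := ⟨_, rfl⟩
  have hy0 : 0 < y := by linarith
  have hy1 : y ≤ 1 := by linarith
  have hT2 : Real.exp (Real.exp 1) ≤ T := by linarith
  have hTH : Real.exp (Real.exp 1) ≤ T + H := by linarith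
  have hTH0 : 0 < T + H := by linarith
  set W := Real.log (T + H) with hWdef
  have hWe : Real.exp 1 ≤ W := by
    rw [hWdef, Real.le_log_iff_exp_le hTH0]
    exact hTH
  have he1 := Real.exp_one_gt_d9
  have hW1 : 1 ≤ W := by linarith
  have hlW : 1 ≤ Real.log W := by
    rw [Real.le_log_iff_exp_le (by linarith)]
    exact hWe
  have hee : (2 : ℝ) ≤ Real.exp (Real.exp 1) := by
    have := Real.add_one_le_exp (Real.exp 1)
    linarith
  have hlH : 0 ≤ Real.log H := Real.log_nonneg hH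
  have hn1 : (1 : ℝ) ≤ n := by
    have h1 : C * 1 ≤ C * Real.log W := mul_le_mul_of_nonneg_left hlW hCpos.le
    have h2 : 1 ≤ C := by rw [hC]; linarith
    linarith
  have hy32 : 0 < y ^ (3 / 2 : ℝ) := Real.rpow_pos_of_pos hy0 _
  set v : ℝ := (n + 1 + y ^ (3 / 2 : ℝ) * Real.log H) / c with hvdef
  have hvn : n / c ≤ v := by
    rw [hvdef]
    apply div_le_div_of_nonneg_right _ hc.le
    have : 0 ≤ y ^ (3 / 2 : ℝ) * Real.log H := by positivity
    linarith
  have hvC : C * Real.log W / c ≤ v := (div_le_div_of_nonneg_right hn hc.le).trans hvn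
  have hC' : ∀ a : ℝ, 0 ≤ a → c * a ≤ C → a * Real.log W ≤ v := by
    intro a ha haC
    refine le_trans ?_ hvC
    rw [le_div_iff₀ hc]
    calc a * Real.log W * c = c * a * Real.log W := by ring
      _ ≤ C * Real.log W := mul_le_mul_of_nonneg_right haC (by linarith)
  have hv1 : 1 ≤ v := by
    have := hC' 1 zero_le_one (by rw [hC]; linarith)
    linarith
  have hv2 : 2 * C1 * Real.log W ≤ v := hC' (2 * C1) (by linarith) (by rw [hC]; linarith)
  have hv3 : 32 * C1 ^ 2 / z ≤ v := by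
    have h1 : 32 * C1 ^ 2 / z * Real.log W ≤ v := hC' (32 * C1 ^ 2 / z) (by positivity) (by
      have : c * (32 * C1 ^ 2 / z) = 32 * c * C1 ^ 2 / z := by ring
      rw [this, hC]
      linarith)
    have h2 : 32 * C1 ^ 2 / z * 1 ≤ 32 * C1 ^ 2 / z * Real.log W :=
      mul_le_mul_of_nonneg_left hlW (by positivity)
    linarith
  have hv0 : 0 < v := by linarith
  -- the zero-free region
  obtain ⟨b1, b2, b3, b4, b5⟩ := hS ρ₀ hρ₀
  have habs : |ρ₀.im| = ρ₀.im := abs_of_nonneg (by linarith)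
  have hcl0 := hcl ρ₀ b1 (by linarith)
  rw [habs] at hcl0
  have hW'pos : 0 < Real.log (2 + T + H) := Real.log_pos (by linarith)
  have hlog2 : Real.log (2 + ρ₀.im) ≤ Real.log (2 + T + H) :=
    Real.log_le_log (by linarith) (by linarith)
  have hlogpos : 0 < Real.log (2 + ρ₀.im) := Real.log_pos (by linarith)
  have hyz : z ≤ y * Real.log (2 + T + H) := by
    have h1 : z / Real.log (2 + ρ₀.im) ≤ y := by linarith
    rw [div_le_iff₀ hlogpos] at h1
    exact h1.trans (mul_le_mul_of_nonneg_left hlog2 hy0.le)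
  have hW'2 : Real.log (2 + T + H) ≤ 2 * W := by
    have h1 : 2 + T + H ≤ (T + H) ^ 2 := by nlinarith
    have h2 := Real.log_le_log (by linarith) h1
    rw [Real.log_pow] at h2
    push_cast at h2
    exact h2
  have hpick := pick hc hC1 hz hy0 hy1 hW1 hlW hW'2 hyz hv1 hv2 hv3
  -- the scale
  set N : ℝ := Real.exp (v / y) with hNdef
  have hvy : v ≤ v / y := by
    rw [le_div_iff₀ hy0]
    nlinarith
  have hN0 : 0 < N := Real.exp_pos _
  have hlN : Real.log N = v / y := Real.log_exp _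
  have hN2 : 2 ≤ N := by
    have := Real.add_one_le_exp (v / y)
    rw [hNdef]
    linarith
  have hN1 : 1 ≤ N := by linarith
  have hsum : Real.log (T + H + N) ≤ W + v / y := by
    rw [← hlN, hWdef, ← Real.log_mul (by linarith) (by linarith)]
    apply Real.log_le_log (by linarith)
    nlinarith
  have hsum0 : 0 < Real.log (T + H + N) := Real.log_pos (by linarith)
  have hNy : N ^ y = Real.exp v := by
    rw [hNdef, ← Real.exp_mul]
    congr 1
    field_simp
  have hcond : Real.log (T + H + N) ^ C1 ≤ N ^ (1 - σ) := by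
    rw [← hy, hNy, Real.rpow_def_of_pos hsum0]
    apply Real.exp_le_exp.2
    have h1 : Real.log (Real.log (T + H + N)) ≤ Real.log (W + v / y) :=
      Real.log_le_log hsum0 hsum
    calc Real.log (Real.log (T + H + N)) * C1 ≤ Real.log (W + v / y) * C1 :=
          mul_le_mul_of_nonneg_right h1 (by linarith)
      _ = C1 * Real.log (W + v / y) := mul_comm _ _
      _ ≤ v := hpick
  have hwin : H ≤ N ^ max (max 1 (4 * σ - 2 - ε)) (c / √(1 - σ)) := by
    refine le_trans ?_ (Real.rpow_le_rpow_of_exponent_le hN1 (le_max_right _ _))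
    have hsq : 0 < √y := Real.sqrt_pos.2 hy0
    have h1 : H = Real.exp (Real.log H) := (Real.exp_log (by linarith)).symm
    rw [h1, hNdef, ← Real.exp_mul]
    apply Real.exp_le_exp.2
    rw [← hy]
    have h2 : y ^ (3 / 2 : ℝ) * Real.log H / c ≤ v := by
      rw [hvdef]
      apply div_le_div_of_nonneg_right _ hc.le
      linarith
    calc Real.log H = (y * √y * Real.log H / c) / y * (c / √y) := by
          field_simp
      _ ≤ v / y * (c / √y) := by
          rw [← three_half hy0]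
          gcongr
  have hmain := h σ N T H hσ hσ1 hN1 (by linarith) (by linarith) hcond hwin S
    (fun ρ hρ => by
      obtain ⟨a1, a2, a3, a4, -⟩ := hS ρ hρ
      exact ⟨a1, a2, a3, a4⟩)
    (Or.inl fun ρ hρ => by
      obtain ⟨-, -, -, -, a5⟩ := hS ρ hρ
      have h1 : ((rz (K * (1 - σ)) (ρ.re - ε * (1 - σ)) ρ : ℕ) : ℝ) ≤ n := by exact_mod_cast a5
      have h2 : c * (1 - σ) * Real.log N = c * v := by
        rw [hlN, ← hy]
        field_simp
      have h3 : c * v = n + 1 + y ^ (3 / 2 : ℝ) * Real.log H := by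
        rw [hvdef]
        field_simp
      rw [h2, h3]
      have : 0 ≤ y ^ (3 / 2 : ℝ) * Real.log H := by positivity
      linarith)
  refine hmain.trans ?_
  have h1 : N ^ ((2 + ε) * (1 - σ)) = Real.exp ((2 + ε) * v) := by
    rw [hNdef, ← Real.exp_mul, ← hy]
    congr 1
    field_simp
  have h2 : H ^ (C * (1 - σ) ^ (3 / 2 : ℝ)) = Real.exp (Real.log H * (C * y ^ (3 / 2 : ℝ))) := by
    rw [Real.rpow_def_of_pos (by linarith), ← hy]
  rw [h1, h2, ← Real.exp_add]
  apply Real.exp_le_exp.2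
  have h3 : 5 / c ≤ C := by rw [hC]; linarith
  have h4 : (2 + ε) * v ≤ 5 / 2 * v := mul_le_mul_of_nonneg_right (by linarith) hv0.le
  have h5 : 5 / 2 * v ≤ 5 / c * n + 5 / c * (y ^ (3 / 2 : ℝ) * Real.log H) := by
    rw [hvdef]
    have h6 : 5 / 2 * ((n + 1 + y ^ (3 / 2 : ℝ) * Real.log H) / c) =
        5 / c * ((n + 1) / 2) + 5 / c * (y ^ (3 / 2 : ℝ) * Real.log H / 2) := by ring
    rw [h6]
    have h7 : 0 ≤ y ^ (3 / 2 : ℝ) * Real.log H := by positivity
    gcongr <;> linarith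
  have h6 : 5 / c * n ≤ C * n := mul_le_mul_of_nonneg_right h3 (by linarith)
  have h7 : 5 / c * (y ^ (3 / 2 : ℝ) * Real.log H) ≤ C * (y ^ (3 / 2 : ℝ) * Real.log H) :=
    mul_le_mul_of_nonneg_right h3 (by positivity)
  have h8 : Real.log H * (C * y ^ (3 / 2 : ℝ)) = C * (y ^ (3 / 2 : ℝ) * Real.log H) := by ring
  rw [h8]
  linarith

end Pool.Agent.H52.UV
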