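import Mathlib
import Pool.Agent.H52.Unc.Gram
import Pool.Agent.H76.VK.Vmvt
import Pool.Agent.H48.VB.Main

/-!
# GramV: `∑_{N1 ≤ n ≤ N2} n^(-1-iu)` with the Vinogradov-Korobov estimate

Copy of `gramK` (`H52/Unc/Gram.lean`) with `vksum` in place of `zsumK`; `|u| < 2`: `tail_bound`.
-/

set_option autoImplicit false

open Complex

namespace Pool.Agent.H52.UV

open Pool.Agent.H52.Unc

theorem gramV : ∃ c C : ℝ, 0 < c ∧ c ≤ 1 / 2 ∧ 1 ≤ C ∧
    ∀ (N1 N2 : ℕ) (H u τ : ℝ), 2 ≤ N1 → N1 ≤ N2 → 1 ≤ |u| → |u| ≤ H → 0 ≤ τ → τ ≤ 1 →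
    τ * Real.log H ≤ Real.log N1 →
    ‖∑ n ∈ Finset.Icc N1 N2, (n : ℂ)⁻¹ * (n : ℂ) ^ (-(u * I))‖ ≤
      C * (1 + Real.log N2) * (1 / |u| + (N1 : ℝ) ^ (-(c * τ ^ 2))) := by
  obtain ⟨A₀, hA₀, hm⟩ := Pool.Agent.H76.VK.vmvt
  obtain ⟨c, C, hc, hc2, hC, hz⟩ := Pool.Agent.H48.VB.vksum (by linarith : (0 : ℝ) ≤ A₀)
    (fun k P hk hP => hm k P hk hP)
  refine ⟨c, max 24 (4 * C), hc, hc2, le_trans (by norm_num) (le_max_left _ _), ?_⟩
  intro N1 N2 H u τ hN1 hN12 hu huH hτ0 hτ1 hτ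
  have hN1r : (2 : ℝ) ≤ N1 := by exact_mod_cast hN1
  have hlog : 0 ≤ Real.log N2 := Real.log_natCast_nonneg N2
  have hup : 0 < |u| := by linarith
  have hpw : 0 ≤ (N1 : ℝ) ^ (-(c * τ ^ 2)) := by positivity
  by_cases hu2 : |u| < 2
  · have h := tail_bound hu (by omega : 1 ≤ N1) (by linarith) hN12
    refine h.trans ?_
    have h1 : 1 / |u| ≤ 1 / |u| + (N1 : ℝ) ^ (-(c * τ ^ 2)) := by linarith
    calc 24 * (1 + Real.log N2) * (1 / |u|) ≤
        max 24 (4 * C) * (1 + Real.log N2) * (1 / |u|) := by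
          gcongr
          exact le_max_left _ _
      _ ≤ _ := by gcongr
  rw [not_lt] at hu2
  have hlu : 0 < Real.log |u| := Real.log_pos (by linarith)
  have hluH : Real.log |u| ≤ Real.log H := Real.log_le_log hup huH
  set g : ℝ := 2 * C * (1 / |u| + (N1 : ℝ) ^ (-(c * τ ^ 2))) with hg
  have hg0 : 0 ≤ g := by positivity
  have h1 := dyad (fun n => (n : ℂ)⁻¹ * (n : ℂ) ^ (-(u * I)))
    (fun _ => g) (fun A => g * (1 + 2 * (Real.log N2 - Real.log A))) (N1 := N1) (N2 := N2)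
    (by omega)
    (by
      intro A hA hA2
      have hA0 : (0 : ℝ) < A := by
        have : 0 < A := by omega
        exact_mod_cast this
      have h2 : Real.log A ≤ Real.log N2 := Real.log_le_log hA0 (by exact_mod_cast hA2)
      show g ≤ g * (1 + 2 * (Real.log N2 - Real.log A))
      nlinarith)
    (by
      intro A hA hA2
      have hA0 : (0 : ℝ) < A := by
        have : 0 < A := by omega
        exact_mod_cast this
      have h2 : Real.log ((2 * A : ℕ) : ℝ) = Real.log 2 + Real.log A := by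
        push_cast
        rw [Real.log_mul (by norm_num) hA0.ne']
      have h3 := Real.log_two_gt_d9
      show g + g * (1 + 2 * (Real.log N2 - Real.log ((2 * A : ℕ) : ℝ))) ≤
        g * (1 + 2 * (Real.log N2 - Real.log A))
      rw [h2]
      nlinarith)
    (by
      intro A B hA hAB hB2 hBM
      have hAr : (N1 : ℝ) ≤ A := by exact_mod_cast hA
      have hA0 : (0 : ℝ) < A := by linarith
      have hA1 : (1 : ℝ) ≤ A := by linarith
      set m := min 1 (Real.log A / Real.log |u|) with hmdef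
      have hlA : Real.log N1 ≤ Real.log A := Real.log_le_log (by linarith) hAr
      have hτm : τ ≤ m := by
        rw [hmdef]
        refine le_min hτ1 ?_
        rw [le_div_iff₀ hlu]
        have : τ * Real.log |u| ≤ τ * Real.log H := mul_le_mul_of_nonneg_left hluH hτ0
        linarith
      have hτm2 : c * τ ^ 2 ≤ c * m ^ 2 :=
        mul_le_mul_of_nonneg_left (pow_le_pow_left₀ hτ0 hτm 2) hc.le
      have h2 := block_bound (fun n => (n : ℂ) ^ (-(u * I)))
        (M := C * ((A : ℝ) ^ (1 - c * m ^ 2) + A / |u|))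
        (by omega : 1 ≤ A) hAB (by
          intro m' hm1 hm2
          exact hz u A m' (by omega) hm1 (by omega) hu2)
      refine h2.trans ?_
      have h3 : C * ((A : ℝ) ^ (1 - c * m ^ 2) + A / |u|) / A =
          C * (1 / |u| + (A : ℝ) ^ (-(c * m ^ 2))) := by
        rw [show (1 : ℝ) - c * m ^ 2 = 1 + (-(c * m ^ 2)) from by ring, Real.rpow_add hA0,
          Real.rpow_one]
        field_simp
        ring
      rw [h3, hg]
      have h4 : (A : ℝ) ^ (-(c * m ^ 2)) ≤ (N1 : ℝ) ^ (-(c * τ ^ 2)) := by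
        calc (A : ℝ) ^ (-(c * m ^ 2)) ≤ (A : ℝ) ^ (-(c * τ ^ 2)) :=
              Real.rpow_le_rpow_of_exponent_le hA1 (by linarith)
          _ ≤ _ := Real.rpow_le_rpow_of_nonpos (by linarith) hAr (by
              have : 0 ≤ c * τ ^ 2 := by positivity
              linarith)
      have h5 : C * (1 / |u| + (A : ℝ) ^ (-(c * m ^ 2))) ≤
          C * (1 / |u| + (N1 : ℝ) ^ (-(c * τ ^ 2))) := by gcongr
      have h6 : 0 ≤ C * (1 / |u| + (N1 : ℝ) ^ (-(c * τ ^ 2))) := by positivity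
      linarith)
    (N2 - N1) N1 le_rfl le_rfl hN12
  refine h1.trans ?_
  have h2 : 0 ≤ Real.log N1 := Real.log_natCast_nonneg N1
  calc g * (1 + 2 * (Real.log N2 - Real.log N1)) ≤ g * (2 * (1 + Real.log N2)) := by
        gcongr
        linarith
    _ = 4 * C * (1 + Real.log N2) * (1 / |u| + (N1 : ℝ) ^ (-(c * τ ^ 2))) := by rw [hg]; ring
    _ ≤ max 24 (4 * C) * (1 + Real.log N2) * (1 / |u| + (N1 : ℝ) ^ (-(c * τ ^ 2))) := by
        gcongr
        exact le_max_right _ _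

end Pool.Agent.H52.UV
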