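import Mathlib
import Pool.Agent.H52.Unc.Defs

/-!
# Layer: the sum over all zeros, weighted by the number of neighbours

Layer cake: with `f ρ` the number of neighbours, `n₀ = ⌈C loglog(T+H+1)⌉` and `g ρ = f ρ - n₀`
(truncated) the zeros with `g ρ = j` have `f ρ ≤ n₀ + j`.
-/

set_option autoImplicit false

open Complex

namespace Pool.Agent.H52.UV

open Pool.Agent.H52.Unc

/-- layer cake over the number of neighbours -/
private theorem cake {ι : Type*} [DecidableEq ι] (S : Finset ι) (f : ι → ℕ) (w : ι → ℝ)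
    (hw : ∀ i ∈ S, 0 ≤ w i) {C P : ℝ} (hC : 0 ≤ C) (hP : 0 ≤ P) (n₀ : ℕ)
    (h : ∀ n : ℕ, n₀ ≤ n → ∀ S' : Finset ι, S' ⊆ S → (∀ i ∈ S', f i ≤ n) →
      ∑ i ∈ S', w i ≤ Real.exp (C * n) * P) :
    ∑ i ∈ S, w i * Real.exp (-((C + 1) * f i)) ≤ 2 * Real.exp (C * n₀) * P := by
  set g : ι → ℕ := fun i => f i - n₀ with hg
  obtain ⟨M, hM⟩ : ∃ M : ℕ, ∀ i ∈ S, g i < M := by
    refine ⟨S.sup g + 1, fun i hi => ?_⟩
    have := Finset.le_sup (f := g) hi
    omega
  have h1 : ∑ i ∈ S, w i * Real.exp (-((C + 1) * f i)) ≤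
      ∑ i ∈ S, w i * Real.exp (-((C + 1) * g i)) := by
    refine Finset.sum_le_sum fun i hi => ?_
    apply mul_le_mul_of_nonneg_left _ (hw i hi)
    apply Real.exp_le_exp.2
    have h2 : ((g i : ℕ) : ℝ) ≤ f i := by
      have : g i ≤ f i := Nat.sub_le _ _
      exact_mod_cast this
    have h3 : (C + 1) * g i ≤ (C + 1) * f i := mul_le_mul_of_nonneg_left h2 (by linarith)
    linarith
  have h2 : ∑ i ∈ S, w i * Real.exp (-((C + 1) * g i)) =
      ∑ j ∈ Finset.range M, ∑ i ∈ S with g i = j, w i * Real.exp (-((C + 1) * g i)) :=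
    (Finset.sum_fiberwise_of_maps_to (fun i hi => Finset.mem_range.2 (hM i hi)) _).symm
  have h3 : ∀ j ∈ Finset.range M, ∑ i ∈ S with g i = j, w i * Real.exp (-((C + 1) * g i)) ≤
      Real.exp (C * n₀) * P * (Real.exp (-1)) ^ j := by
    intro j _
    have h4 : ∑ i ∈ S with g i = j, w i * Real.exp (-((C + 1) * g i)) =
        (∑ i ∈ S with g i = j, w i) * Real.exp (-((C + 1) * j)) := by
      rw [Finset.sum_mul]
      refine Finset.sum_congr rfl fun i hi => ?_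
      rw [(Finset.mem_filter.1 hi).2]
    have h5 := h (n₀ + j) (by omega) (S.filter fun i => g i = j) (Finset.filter_subset _ _)
      (fun i hi => by
        have := (Finset.mem_filter.1 hi).2
        simp only [hg] at this
        omega)
    have h6 : Real.exp (C * ((n₀ + j : ℕ) : ℝ)) * P * Real.exp (-((C + 1) * j)) =
        Real.exp (C * n₀) * P * (Real.exp (-1)) ^ j := by
      have e1 : Real.exp (C * ((n₀ + j : ℕ) : ℝ)) * Real.exp (-((C + 1) * j)) =
          Real.exp (C * n₀) * Real.exp (-1) ^ j := by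
        rw [← Real.exp_nat_mul, ← Real.exp_add, ← Real.exp_add]
        congr 1
        push_cast
        ring
      calc Real.exp (C * ((n₀ + j : ℕ) : ℝ)) * P * Real.exp (-((C + 1) * j)) =
          (Real.exp (C * ((n₀ + j : ℕ) : ℝ)) * Real.exp (-((C + 1) * j))) * P := by ring
        _ = _ := by rw [e1]; ring
    rw [h4, ← h6]
    exact mul_le_mul_of_nonneg_right h5 (Real.exp_nonneg _)
  have hr0 : 0 ≤ Real.exp (-1) := Real.exp_nonneg _
  have hr1 : Real.exp (-1) ≤ 1 / 2 := by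
    have := Real.exp_one_gt_d9
    rw [Real.exp_neg]
    rw [inv_eq_one_div]
    exact one_div_le_one_div_of_le (by norm_num) (by linarith)
  have h7 : ∑ j ∈ Finset.range M, (Real.exp (-1)) ^ j ≤ 2 := by
    have h8 := (summable_geometric_of_lt_one hr0 (by linarith)).sum_le_tsum (Finset.range M)
      (fun j _ => pow_nonneg hr0 j)
    rw [tsum_geometric_of_lt_one hr0 (by linarith)] at h8
    refine h8.trans ?_
    rw [inv_eq_one_div, div_le_iff₀ (by linarith)]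
    linarith
  calc ∑ i ∈ S, w i * Real.exp (-((C + 1) * f i)) ≤ _ := h1
    _ = _ := h2
    _ ≤ ∑ j ∈ Finset.range M, Real.exp (C * n₀) * P * (Real.exp (-1)) ^ j :=
        Finset.sum_le_sum h3
    _ = Real.exp (C * n₀) * P * ∑ j ∈ Finset.range M, (Real.exp (-1)) ^ j := by
        rw [Finset.mul_sum]
    _ ≤ Real.exp (C * n₀) * P * 2 :=
        mul_le_mul_of_nonneg_left h7 (mul_nonneg (Real.exp_nonneg _) hP)
    _ = _ := by ring

theorem layer {ε K C : ℝ} (hC : 1 ≤ C)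
    (h : ∀ (σ T H : ℝ) (n : ℕ), 1 / 2 + ε ≤ σ → σ < 1 → C ≤ T → 1 ≤ H →
      C * Real.log (Real.log (T + H)) ≤ n →
      ∀ S : Finset ℂ, (∀ ρ ∈ S, riemannZeta ρ = 0 ∧ σ ≤ ρ.re ∧ T ≤ ρ.im ∧ ρ.im ≤ T + H ∧
        rz (K * (1 - σ)) (ρ.re - ε * (1 - σ)) ρ ≤ n) →
      ∑ ρ ∈ S, (analyticOrderNatAt riemannZeta ρ : ℝ) ≤
        Real.exp (C * n) * H ^ (C * (1 - σ) ^ (3 / 2 : ℝ))) :
    ∃ C' : ℝ, 1 ≤ C' ∧ ∀ σ T H : ℝ, 1 / 2 + ε ≤ σ → σ < 1 → C' ≤ T → 0 ≤ H →
      ∀ S : Finset ℂ, (∀ ρ ∈ S, riemannZeta ρ = 0 ∧ σ ≤ ρ.re ∧ T ≤ ρ.im ∧ ρ.im ≤ T + H) →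
      ∑ ρ ∈ S, (analyticOrderNatAt riemannZeta ρ : ℝ) *
          Real.exp (-(C' * rz (K * (1 - σ)) (ρ.re - ε * (1 - σ)) ρ)) ≤
        Real.log (T + H) ^ C' * (H + 1) ^ (C' * (1 - σ) ^ (3 / 2 : ℝ)) := by
  classical
  have hE := Real.exp_pos (Real.exp 1)
  refine ⟨2 * C ^ 2 + C + 1 + Real.exp (Real.exp 1), by nlinarith, ?_⟩
  set C' : ℝ := 2 * C ^ 2 + C + 1 + Real.exp (Real.exp 1) with hC'
  intro σ T H hσ hσ1 hT hH S hS
  have hCsq : 1 ≤ C ^ 2 := one_le_pow₀ hC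
  have hC0 : 0 < C := by linarith
  have hT2 : Real.exp (Real.exp 1) ≤ T := by nlinarith
  have hCT : C ≤ T := by nlinarith
  have hCC' : C + 1 ≤ C' := by nlinarith
  have hTH : Real.exp (Real.exp 1) ≤ T + H := by linarith
  set W := Real.log (T + H) with hW
  have hWe : Real.exp 1 ≤ W := by
    rw [hW, Real.le_log_iff_exp_le (by linarith)]
    exact hTH
  have he1 := Real.exp_one_gt_d9
  have hW2 : 2 ≤ W := by linarith
  have hW0 : 0 < W := by linarith
  have hee : (3 : ℝ) ≤ Real.exp (Real.exp 1) := by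
    have := Real.add_one_le_exp (Real.exp 1)
    linarith
  have hW' : Real.log (T + (H + 1)) ≤ W ^ 2 := by
    have h1 : T + (H + 1) ≤ (T + H) ^ 2 := by nlinarith
    have h2 := Real.log_le_log (by linarith) h1
    rw [Real.log_pow] at h2
    push_cast at h2
    nlinarith
  have hW'0 : Real.exp 1 ≤ Real.log (T + (H + 1)) :=
    hWe.trans (Real.log_le_log (by linarith) (by linarith))
  have hlW' : Real.log (Real.log (T + (H + 1))) ≤ 2 * Real.log W := by
    have h1 := Real.log_le_log (by linarith) hW'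
    rw [Real.log_pow] at h1
    push_cast at h1
    exact h1
  have hlW1 : 1 ≤ Real.log W := by
    rw [Real.le_log_iff_exp_le hW0]
    exact hWe
  have hlW0 : 0 ≤ Real.log (Real.log (T + (H + 1))) := Real.log_nonneg (by linarith)
  set n₀ : ℕ := ⌈C * Real.log (Real.log (T + (H + 1)))⌉₊ with hn₀
  have hn₀1 : C * Real.log (Real.log (T + (H + 1))) ≤ n₀ := Nat.le_ceil _
  have hn₀2 : (n₀ : ℝ) ≤ 2 * C * Real.log W + 1 := by
    have h1 := Nat.ceil_lt_add_one (mul_nonneg hC0.le hlW0)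
    have h2 : C * Real.log (Real.log (T + (H + 1))) ≤ C * (2 * Real.log W) :=
      mul_le_mul_of_nonneg_left hlW' hC0.le
    linarith
  have hP : 0 ≤ (H + 1) ^ (C * (1 - σ) ^ (3 / 2 : ℝ)) := Real.rpow_nonneg (by linarith) _
  have hcake := cake S (fun ρ => rz (K * (1 - σ)) (ρ.re - ε * (1 - σ)) ρ)
    (fun ρ => (analyticOrderNatAt riemannZeta ρ : ℝ)) (fun _ _ => Nat.cast_nonneg _) hC0.le hP n₀
    (fun n hn S' hS' hf => h σ T (H + 1) n hσ hσ1 hCT (by linarith)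
      (hn₀1.trans (by exact_mod_cast hn)) S'
      (fun ρ hρ => by
        obtain ⟨a1, a2, a3, a4⟩ := hS ρ (hS' hρ)
        exact ⟨a1, a2, a3, by linarith, hf ρ hρ⟩))
  have h1 : ∑ ρ ∈ S, (analyticOrderNatAt riemannZeta ρ : ℝ) *
      Real.exp (-(C' * rz (K * (1 - σ)) (ρ.re - ε * (1 - σ)) ρ)) ≤
      ∑ ρ ∈ S, (analyticOrderNatAt riemannZeta ρ : ℝ) *
      Real.exp (-((C + 1) * rz (K * (1 - σ)) (ρ.re - ε * (1 - σ)) ρ)) := by
    refine Finset.sum_le_sum fun ρ _ => ?_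
    apply mul_le_mul_of_nonneg_left _ (Nat.cast_nonneg _)
    apply Real.exp_le_exp.2
    have : (C + 1) * (rz (K * (1 - σ)) (ρ.re - ε * (1 - σ)) ρ : ℝ) ≤
        C' * rz (K * (1 - σ)) (ρ.re - ε * (1 - σ)) ρ :=
      mul_le_mul_of_nonneg_right hCC' (Nat.cast_nonneg _)
    linarith
  refine h1.trans (hcake.trans ?_)
  have h2 : 2 * Real.exp (C * n₀) ≤ W ^ C' := by
    have h3 : Real.exp (C * n₀) ≤ Real.exp (Real.log W * (2 * C ^ 2 + C)) := by
      apply Real.exp_le_exp.2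
      calc C * (n₀ : ℝ) ≤ C * (2 * C * Real.log W + 1) := mul_le_mul_of_nonneg_left hn₀2 hC0.le
        _ = Real.log W * (2 * C ^ 2) + C * 1 := by ring
        _ ≤ Real.log W * (2 * C ^ 2) + C * Real.log W := by gcongr
        _ = _ := by ring
    rw [← Real.rpow_def_of_pos hW0] at h3
    calc 2 * Real.exp (C * n₀) ≤ W * W ^ (2 * C ^ 2 + C) := by gcongr
      _ = W ^ (2 * C ^ 2 + C + 1) := by
          rw [Real.rpow_add_one hW0.ne']
          ring
      _ ≤ W ^ C' := Real.rpow_le_rpow_of_exponent_le (by linarith) (by linarith)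
  have hy : 0 ≤ (1 - σ) ^ (3 / 2 : ℝ) := Real.rpow_nonneg (by linarith) _
  have h4 : (H + 1) ^ (C * (1 - σ) ^ (3 / 2 : ℝ)) ≤ (H + 1) ^ (C' * (1 - σ) ^ (3 / 2 : ℝ)) := by
    apply Real.rpow_le_rpow_of_exponent_le (by linarith)
    exact mul_le_mul_of_nonneg_right (by linarith) hy
  exact mul_le_mul h2 h4 hP (Real.rpow_nonneg hW0.le _)

end Pool.Agent.H52.UV
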