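import Mathlib
import Pool.Agent.H76.CR.DerivL
import Pool.Agent.H52.Unc.Defs
import Pool.Agent.H52.Unc.Halasz
import Pool.Agent.H52.UV.GramV

/-!
# SepHVK: few separated points where one of the polynomials is large (Vinogradov-Korobov windows)

Copy of `sepHK` (`H76/SV/SepHV.lean`) with `gramV`: `H ≤ N^((1-7θ) e)`, `τ = 1/e`,
`g = N1^(-c τ²) ≤ N^(-(c/8)/e²)`.
-/

set_option autoImplicit false

open Complex

namespace Pool.Agent.H52.UV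

open Pool.Agent.H76.CR Pool.Agent.H52.Unc

private theorem shv_coeff {a : ℝ} (ha : 0 < a) (k n : ℕ) (hn : 1 ≤ n) :
    0 ≤ a ^ (k + 1) * dco a k n ∧ a ^ (k + 1) * dco a k n ≤ a * (Real.log n / n) := by
  have hn0 : (0 : ℝ) < n := by exact_mod_cast hn
  have hl : 0 ≤ Real.log n := Real.log_natCast_nonneg n
  have hL : ArithmeticFunction.vonMangoldt n ≤ Real.log n := ArithmeticFunction.vonMangoldt_le_log
  have hL0 : 0 ≤ ArithmeticFunction.vonMangoldt n := ArithmeticFunction.vonMangoldt_nonneg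
  have h1 : (a * Real.log n) ^ k / (k.factorial : ℝ) ≤ Real.exp (a * Real.log n) :=
    Real.pow_div_factorial_le_exp _ (by positivity) k
  have h2 : (n : ℝ) ^ (-(1 + a)) = (n : ℝ)⁻¹ * Real.exp (-(a * Real.log n)) := by
    rw [neg_add, Real.rpow_add hn0, Real.rpow_neg_one, Real.rpow_def_of_pos hn0 (-a)]
    congr 2
    ring
  have h3 : a ^ (k + 1) * dco a k n = a * ArithmeticFunction.vonMangoldt n * (n : ℝ)⁻¹ *
      ((a * Real.log n) ^ k / (k.factorial : ℝ) * Real.exp (-(a * Real.log n))) := by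
    unfold dco
    rw [h2, mul_pow, pow_succ]
    ring
  have h4 : (a * Real.log n) ^ k / (k.factorial : ℝ) * Real.exp (-(a * Real.log n)) ≤ 1 := by
    calc (a * Real.log n) ^ k / (k.factorial : ℝ) * Real.exp (-(a * Real.log n))
        ≤ Real.exp (a * Real.log n) * Real.exp (-(a * Real.log n)) :=
          mul_le_mul_of_nonneg_right h1 (Real.exp_nonneg _)
      _ = 1 := by rw [← Real.exp_add, add_neg_cancel, Real.exp_zero]
  have h5 : 0 ≤ (a * Real.log n) ^ k / (k.factorial : ℝ) * Real.exp (-(a * Real.log n)) := by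
    positivity
  rw [h3]
  refine ⟨by positivity, ?_⟩
  calc a * ArithmeticFunction.vonMangoldt n * (n : ℝ)⁻¹ *
      ((a * Real.log n) ^ k / (k.factorial : ℝ) * Real.exp (-(a * Real.log n)))
      ≤ a * ArithmeticFunction.vonMangoldt n * (n : ℝ)⁻¹ * 1 :=
        mul_le_mul_of_nonneg_left h4 (by positivity)
    _ ≤ a * Real.log n * (n : ℝ)⁻¹ * 1 := by gcongr
    _ = a * (Real.log n / n) := by ring

private theorem shv_harm (N1 N2 : ℕ) (h1 : 1 ≤ N1) :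
    ∑ n ∈ Finset.Icc N1 N2, ((n : ℝ))⁻¹ ≤ 1 + Real.log N2 := by
  have h2 : ∑ n ∈ Finset.Icc N1 N2, ((n : ℝ))⁻¹ ≤ ∑ n ∈ Finset.Icc 1 N2, ((n : ℝ))⁻¹ := by
    refine Finset.sum_le_sum_of_subset_of_nonneg (Finset.Icc_subset_Icc_left h1) ?_
    intro n _ _
    positivity
  have h3 := harmonic_le_one_add_log N2
  have h4 : ((harmonic N2 : ℚ) : ℝ) = ∑ n ∈ Finset.Icc 1 N2, ((n : ℝ))⁻¹ := by
    rw [harmonic_eq_sum_Icc]
    push_cast
    rfl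
  rw [h4] at h3
  exact h2.trans h3

private theorem shv_core {θ a C M : ℝ} (ha : 0 < a) (hC : 1 ≤ C) (hM : 1 ≤ M)
    (μ N T H g : ℝ) (X : Finset ℝ) (hN256 : 256 ≤ N) (hH : 1 ≤ H)
    (hNN : ⌈N ^ (1 - 7 * θ)⌉₊ ≤ ⌊N⌋₊) (hg : 0 ≤ g)
    (hlogH : 3 + 2 * Real.log H ≤ M * (1 + Real.log N))
    (hgsmall : 2 * a ^ 2 * C * (1 + Real.log N) ^ 4 * g ≤ N ^ (-(2 * μ)))
    (hgram : ∀ u : ℝ, 1 ≤ |u| → |u| ≤ H →
      ‖∑ n ∈ Finset.Icc ⌈N ^ (1 - 7 * θ)⌉₊ ⌊N⌋₊, (n : ℂ)⁻¹ * (n : ℂ) ^ (-(u * I))‖ ≤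
        C * (1 + Real.log (⌊N⌋₊ : ℕ)) * (1 / |u| + g))
    (hX : ∀ x ∈ X, T ≤ x ∧ x ≤ T + H) (hsep : ∀ x ∈ X, ∀ y ∈ X, x ≠ y → 1 ≤ |x - y|)
    (hbig : ∀ x ∈ X, ∃ k : ℕ, (k : ℝ) ≤ a * Real.log N ∧
        N ^ (-μ) ≤ a ^ (k + 1) * ‖tPoly θ a k N x‖) :
    (X.card : ℝ) ≤ (2 * C * a ^ 2 * (a + 1) * M) * (1 + Real.log N) ^ 6 * N ^ (2 * μ) := by
  classical
  have hNpos : 0 < N := by linarith
  set L := Real.log N with hL
  have hL0 : 0 ≤ L := Real.log_nonneg (by linarith)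
  have hfl : (⌊N⌋₊ : ℝ) ≤ N := Nat.floor_le hNpos.le
  have hfl1 : 1 ≤ ⌊N⌋₊ := Nat.le_floor (by push_cast; linarith)
  have hYpos : 0 < N ^ (1 - 7 * θ) := Real.rpow_pos_of_pos hNpos _
  have hce1 : 1 ≤ ⌈N ^ (1 - 7 * θ)⌉₊ := Nat.one_le_ceil_iff.2 hYpos
  have hlogM : Real.log (⌊N⌋₊ : ℝ) ≤ L :=
    Real.log_le_log (by exact_mod_cast hfl1) hfl
  have hlogM0 : 0 ≤ Real.log (⌊N⌋₊ : ℝ) := Real.log_natCast_nonneg _
  set Xk : ℕ → Finset ℝ := fun k =>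
    X.filter (fun x => N ^ (-μ) ≤ a ^ (k + 1) * ‖tPoly θ a k N x‖) with hXk
  have hsub : X ⊆ (Finset.range (⌊a * L⌋₊ + 1)).biUnion Xk := by
    intro x hx
    obtain ⟨k, hk, hk2⟩ := hbig x hx
    rw [Finset.mem_biUnion]
    exact ⟨k, Finset.mem_range.2 (Nat.lt_succ_of_le (Nat.le_floor hk)),
      Finset.mem_filter.2 ⟨hx, hk2⟩⟩
  have hlogHnn : 0 ≤ 3 + 2 * Real.log H := by
    have := Real.log_nonneg hH
    linarith
  have hmain : ∀ k, ((Xk k).card : ℝ) ≤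
      2 * C * a ^ 2 * M * (1 + L) ^ 5 * N ^ (2 * μ) := by
    intro k
    have h := halasz (N1 := ⌈N ^ (1 - 7 * θ)⌉₊) (N2 := ⌊N⌋₊) hce1
      (fun n => ((a ^ (k + 1) * dco a k n : ℝ) : ℂ)) (Xk k) (T := T) (H := H)
      (G := C * (1 + L)) (g := g) hH
      (by nlinarith) hg
      (fun x hx => hX x (Finset.mem_filter.1 hx).1)
      (fun x hx y hy hxy => hsep x (Finset.mem_filter.1 hx).1 y (Finset.mem_filter.1 hy).1 hxy)
      (by
        intro u hu1 hu2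
        refine (hgram u hu1 hu2).trans ?_
        have : 0 ≤ 1 / |u| + g := by positivity
        have h2 : C * (1 + Real.log (⌊N⌋₊ : ℕ)) ≤ C * (1 + L) := by gcongr
        exact mul_le_mul_of_nonneg_right h2 this)
    set R : ℝ := ((Xk k).card : ℝ) with hR
    have hR0 : 0 ≤ R := Nat.cast_nonneg _
    have hlow : R * N ^ (-μ) ≤
        ∑ x ∈ Xk k, ‖∑ n ∈ Finset.Icc ⌈N ^ (1 - 7 * θ)⌉₊ ⌊N⌋₊,
          ((a ^ (k + 1) * dco a k n : ℝ) : ℂ) * (n : ℂ) ^ (-(x * I))‖ := by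
      rw [hR, ← nsmul_eq_mul]
      refine Finset.card_nsmul_le_sum _ _ _ fun x hx => ?_
      have h1 := (Finset.mem_filter.1 hx).2
      have h2 : ∑ n ∈ Finset.Icc ⌈N ^ (1 - 7 * θ)⌉₊ ⌊N⌋₊,
          ((a ^ (k + 1) * dco a k n : ℝ) : ℂ) * (n : ℂ) ^ (-(x * I)) =
          ((a ^ (k + 1) : ℝ) : ℂ) * tPoly θ a k N x := by
        unfold tPoly
        rw [Finset.mul_sum]
        refine Finset.sum_congr rfl fun n _ => ?_
        push_cast
        ring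
      rw [h2, norm_mul, Complex.norm_real, Real.norm_of_nonneg (by positivity)]
      exact h1
    have hlow2 : R ^ 2 * N ^ (-(2 * μ)) ≤
        (∑ x ∈ Xk k, ‖∑ n ∈ Finset.Icc ⌈N ^ (1 - 7 * θ)⌉₊ ⌊N⌋₊,
          ((a ^ (k + 1) * dco a k n : ℝ) : ℂ) * (n : ℂ) ^ (-(x * I))‖) ^ 2 := by
      have e1 : N ^ (-(2 * μ)) = (N ^ (-μ)) ^ 2 := by
        rw [← Real.rpow_natCast, ← Real.rpow_mul hNpos.le]
        congr 1
        push_cast
        ring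
      rw [e1, ← mul_pow]
      exact pow_le_pow_left₀ (mul_nonneg hR0 (Real.rpow_nonneg hNpos.le _)) hlow 2
    have hup : ∑ n ∈ Finset.Icc ⌈N ^ (1 - 7 * θ)⌉₊ ⌊N⌋₊,
        (n : ℝ) * ‖((a ^ (k + 1) * dco a k n : ℝ) : ℂ)‖ ^ 2 ≤ a ^ 2 * (1 + L) ^ 3 := by
      have e1 : ∑ n ∈ Finset.Icc ⌈N ^ (1 - 7 * θ)⌉₊ ⌊N⌋₊,
          (n : ℝ) * ‖((a ^ (k + 1) * dco a k n : ℝ) : ℂ)‖ ^ 2 ≤
          ∑ n ∈ Finset.Icc ⌈N ^ (1 - 7 * θ)⌉₊ ⌊N⌋₊, a ^ 2 * L ^ 2 * ((n : ℝ))⁻¹ := by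
        refine Finset.sum_le_sum fun n hn => ?_
        have hn' := Finset.mem_Icc.1 hn
        have hn1 : 1 ≤ n := hce1.trans hn'.1
        have hnpos : (0 : ℝ) < n := by exact_mod_cast hn1
        obtain ⟨c1, c2⟩ := shv_coeff ha k n hn1
        rw [Complex.norm_real, Real.norm_of_nonneg c1]
        have hnN : (n : ℝ) ≤ N := le_trans (by exact_mod_cast hn'.2) hfl
        have hln : Real.log n ≤ L := Real.log_le_log hnpos hnN
        have hln0 : 0 ≤ Real.log n := Real.log_natCast_nonneg n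
        have c3 : a * (Real.log n / n) ≤ a * (L / n) := by gcongr
        calc (n : ℝ) * (a ^ (k + 1) * dco a k n) ^ 2 ≤ (n : ℝ) * (a * (L / n)) ^ 2 :=
              mul_le_mul_of_nonneg_left (pow_le_pow_left₀ c1 (c2.trans c3) 2) hnpos.le
          _ = a ^ 2 * L ^ 2 * ((n : ℝ))⁻¹ := by
              field_simp
      have e2 := shv_harm ⌈N ^ (1 - 7 * θ)⌉₊ ⌊N⌋₊ hce1
      calc _ ≤ _ := e1
        _ = a ^ 2 * L ^ 2 * ∑ n ∈ Finset.Icc ⌈N ^ (1 - 7 * θ)⌉₊ ⌊N⌋₊, ((n : ℝ))⁻¹ := by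
            rw [Finset.mul_sum]
        _ ≤ a ^ 2 * (1 + L) ^ 2 * (1 + L) := by
            have e3 : ∑ n ∈ Finset.Icc ⌈N ^ (1 - 7 * θ)⌉₊ ⌊N⌋₊, ((n : ℝ))⁻¹ ≤ 1 + L := by
              linarith
            have e4 : L ^ 2 ≤ (1 + L) ^ 2 := by nlinarith
            have e5 : 0 ≤ ∑ n ∈ Finset.Icc ⌈N ^ (1 - 7 * θ)⌉₊ ⌊N⌋₊, ((n : ℝ))⁻¹ :=
              Finset.sum_nonneg fun n _ => by positivity
            have e6 : a ^ 2 * L ^ 2 ≤ a ^ 2 * (1 + L) ^ 2 :=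
              mul_le_mul_of_nonneg_left e4 (by positivity)
            exact mul_le_mul e6 e3 e5 (by positivity)
        _ = _ := by ring
    have hall : R ^ 2 * N ^ (-(2 * μ)) ≤
        a ^ 2 * (1 + L) ^ 3 * (C * (1 + L) * (R * (M * (1 + L)) + R ^ 2 * g)) := by
      refine hlow2.trans (h.trans ?_)
      have e7 : 0 ≤ C * (1 + L) := by positivity
      have e8 : C * (1 + L) * (R * (3 + 2 * Real.log H) + R ^ 2 * g) ≤
          C * (1 + L) * (R * (M * (1 + L)) + R ^ 2 * g) := by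
        apply mul_le_mul_of_nonneg_left _ e7
        have := mul_le_mul_of_nonneg_left hlogH hR0
        linarith
      have e9 : 0 ≤ C * (1 + L) * (R * (3 + 2 * Real.log H) + R ^ 2 * g) := by positivity
      exact mul_le_mul hup e8 e9 (by positivity)
    have hP : 0 < N ^ (-(2 * μ)) := Real.rpow_pos_of_pos hNpos _
    have hkey : R ^ 2 * N ^ (-(2 * μ)) ≤ 2 * C * a ^ 2 * M * (1 + L) ^ 5 * R := by
      have f1 : a ^ 2 * (1 + L) ^ 3 * (C * (1 + L) * (R ^ 2 * g)) =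
          R ^ 2 * (2 * a ^ 2 * C * (1 + L) ^ 4 * g) / 2 := by ring
      have f2 : R ^ 2 * (2 * a ^ 2 * C * (1 + L) ^ 4 * g) ≤ R ^ 2 * N ^ (-(2 * μ)) :=
        mul_le_mul_of_nonneg_left hgsmall (by positivity)
      have f3 : a ^ 2 * (1 + L) ^ 3 * (C * (1 + L) * (R * (M * (1 + L)) + R ^ 2 * g)) =
          C * a ^ 2 * M * (1 + L) ^ 5 * R + a ^ 2 * (1 + L) ^ 3 * (C * (1 + L) * (R ^ 2 * g)) := by
        ring
      rw [f3, f1] at hall
      linarith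
    rcases eq_or_lt_of_le hR0 with h0 | hpos
    · rw [← h0]
      have : 0 < M := by linarith
      have : 0 < C := by linarith
      positivity
    · have g1 : R * N ^ (-(2 * μ)) ≤ 2 * C * a ^ 2 * M * (1 + L) ^ 5 := by
        have g2 : R * (R * N ^ (-(2 * μ))) ≤ R * (2 * C * a ^ 2 * M * (1 + L) ^ 5) := by
          calc R * (R * N ^ (-(2 * μ))) = R ^ 2 * N ^ (-(2 * μ)) := by ring
            _ ≤ _ := hkey
            _ = _ := by ring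
        exact le_of_mul_le_mul_left g2 hpos
      have hone : N ^ (-(2 * μ)) * N ^ (2 * μ) = 1 := by
        rw [← Real.rpow_add hNpos, neg_add_cancel, Real.rpow_zero]
      calc R = (R * N ^ (-(2 * μ))) * N ^ (2 * μ) := by rw [mul_assoc, hone, mul_one]
        _ ≤ _ := mul_le_mul_of_nonneg_right g1 (Real.rpow_nonneg hNpos.le _)
  have hcard : (X.card : ℝ) ≤ ∑ k ∈ Finset.range (⌊a * L⌋₊ + 1), ((Xk k).card : ℝ) := by
    have := (Finset.card_le_card hsub).trans Finset.card_biUnion_le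
    exact_mod_cast this
  have hsum : ∑ k ∈ Finset.range (⌊a * L⌋₊ + 1), ((Xk k).card : ℝ) ≤
      ((⌊a * L⌋₊ : ℝ) + 1) * (2 * C * a ^ 2 * M * (1 + L) ^ 5 * N ^ (2 * μ)) := by
    refine (Finset.sum_le_sum fun k _ => hmain k).trans ?_
    rw [Finset.sum_const, Finset.card_range, nsmul_eq_mul]
    push_cast
    exact le_refl _
  have hfa : (⌊a * L⌋₊ : ℝ) + 1 ≤ (a + 1) * (1 + L) := by
    have := Nat.floor_le (mul_nonneg ha.le hL0)
    nlinarith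
  have hM0 : 0 < M := by linarith
  have hC0 : 0 < C := by linarith
  have hNP : 0 ≤ N ^ (2 * μ) := Real.rpow_nonneg hNpos.le _
  calc (X.card : ℝ) ≤ _ := hcard
    _ ≤ _ := hsum
    _ ≤ (a + 1) * (1 + L) * (2 * C * a ^ 2 * M * (1 + L) ^ 5 * N ^ (2 * μ)) :=
        mul_le_mul_of_nonneg_right hfa (by positivity)
    _ = _ := by ring

private theorem shv_empty {θ a μ N : ℝ} {X : Finset ℝ} (hN : 0 < N)
    (hcase : ¬ ⌈N ^ (1 - 7 * θ)⌉₊ ≤ ⌊N⌋₊)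
    (hbig : ∀ x ∈ X, ∃ k : ℕ, (k : ℝ) ≤ a * Real.log N ∧
      N ^ (-μ) ≤ a ^ (k + 1) * ‖tPoly θ a k N x‖) : X = ∅ := by
  by_contra hne
  obtain ⟨x, hx⟩ := Finset.nonempty_iff_ne_empty.2 hne
  obtain ⟨k, -, h⟩ := hbig x hx
  have h0 : tPoly θ a k N x = 0 := by
    unfold tPoly
    rw [Finset.Icc_eq_empty hcase, Finset.sum_empty]
  rw [h0, norm_zero, mul_zero] at h
  exact absurd h (not_le.2 (Real.rpow_pos_of_pos hN _))

theorem sepHVK {A : ℝ} (hA : 0 < A) : ∃ δ C : ℝ, 0 < δ ∧ 1 ≤ C ∧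
    ∀ (θ a μ N T H e : ℝ) (X : Finset ℝ), 0 < θ → θ ≤ 1 / 8 → 0 < a → a ≤ A → 0 ≤ μ → C ≤ N →
    1 ≤ H → 1 ≤ e → H ≤ N ^ ((1 - 7 * θ) * e) → C * (1 + Real.log N) ^ 4 ≤ N ^ (δ / e ^ 2 - 2 * μ) →
    (∀ x ∈ X, T ≤ x ∧ x ≤ T + H) → (∀ x ∈ X, ∀ y ∈ X, x ≠ y → 1 ≤ |x - y|) →
    (∀ x ∈ X, ∃ k : ℕ, (k : ℝ) ≤ a * Real.log N ∧
      N ^ (-μ) ≤ a ^ (k + 1) * ‖tPoly θ a k N x‖) →
    (X.card : ℝ) ≤ C * e * (1 + Real.log N) ^ 8 * N ^ (2 * μ) := by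
  obtain ⟨δ, C, hδ0, hδ1, hC1, hC⟩ := gramV
  have hC0 : 0 < C := by linarith
  have hp1 : 0 < 2 * A ^ 2 * C := by positivity
  have hp2 : 0 < 2 * C * A ^ 2 * (A + 1) * 5 := by positivity
  refine ⟨δ / 8, 256 + 2 * A ^ 2 * C + 2 * C * A ^ 2 * (A + 1) * 5, by positivity,
    by linarith, ?_⟩
  intro θ a μ N T H e X hθ hθ1 ha haA hμ hN hH he hHN hsmall hX hsep hbig
  have hN256 : 256 ≤ N := by linarith
  have hNpos : 0 < N := by linarith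
  have hNone : 1 ≤ N := by linarith
  have he0 : 0 < e := by linarith
  have hL0 : 0 ≤ Real.log N := Real.log_nonneg hNone
  have hP : 0 < N ^ (2 * μ) := Real.rpow_pos_of_pos hNpos _
  by_cases hceil : ⌈N ^ (1 - 7 * θ)⌉₊ ≤ ⌊N⌋₊
  swap
  · rw [shv_empty hNpos hceil hbig, Finset.card_empty, Nat.cast_zero]
    positivity
  have hNpow : H ≤ N ^ e := hHN.trans
    (Real.rpow_le_rpow_of_exponent_le hNone (by nlinarith))
  have hlogH : Real.log H ≤ e * Real.log N := by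
    have := Real.log_le_log (by linarith) hNpow
    rwa [Real.log_rpow hNpos] at this
  have hYpos : 0 < N ^ (1 - 7 * θ) := Real.rpow_pos_of_pos hNpos _
  have hce : N ^ (1 - 7 * θ) ≤ (⌈N ^ (1 - 7 * θ)⌉₊ : ℝ) := Nat.le_ceil _
  have hY2 : (2 : ℝ) ≤ N ^ (1 - 7 * θ) := by
    calc (2 : ℝ) = (256 : ℝ) ^ (1 / 8 : ℝ) := by
          rw [show (256 : ℝ) = 2 ^ (8 : ℝ) from by norm_num, ← Real.rpow_mul (by norm_num)]
          norm_num
      _ ≤ N ^ (1 / 8 : ℝ) := Real.rpow_le_rpow (by norm_num) hN256 (by norm_num)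
      _ ≤ N ^ (1 - 7 * θ) := Real.rpow_le_rpow_of_exponent_le hNone (by linarith)
  have hce2 : 2 ≤ ⌈N ^ (1 - 7 * θ)⌉₊ := by
    have : (2 : ℝ) ≤ (⌈N ^ (1 - 7 * θ)⌉₊ : ℝ) := hY2.trans hce
    exact_mod_cast this
  have hHk : 1 / e * Real.log H ≤ Real.log (⌈N ^ (1 - 7 * θ)⌉₊ : ℕ) := by
    have h1 : Real.log H ≤ (1 - 7 * θ) * e * Real.log N := by
      have := Real.log_le_log (by linarith) hHN
      rwa [Real.log_rpow hNpos] at this
    have h2 : (1 - 7 * θ) * Real.log N ≤ Real.log (⌈N ^ (1 - 7 * θ)⌉₊ : ℕ) := by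
      rw [← Real.log_rpow hNpos]
      exact Real.log_le_log hYpos hce
    refine le_trans ?_ h2
    calc 1 / e * Real.log H ≤ 1 / e * ((1 - 7 * θ) * e * Real.log N) :=
          mul_le_mul_of_nonneg_left h1 (by positivity)
      _ = (1 - 7 * θ) * Real.log N := by field_simp
  have hgle : (⌈N ^ (1 - 7 * θ)⌉₊ : ℝ) ^ (-(δ * (1 / e) ^ 2)) ≤ N ^ (-(δ / 8 / e ^ 2)) := by
    have hde : 0 ≤ δ * (1 / e) ^ 2 := by positivity
    calc (⌈N ^ (1 - 7 * θ)⌉₊ : ℝ) ^ (-(δ * (1 / e) ^ 2)) ≤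
          (N ^ (1 - 7 * θ)) ^ (-(δ * (1 / e) ^ 2)) :=
          Real.rpow_le_rpow_of_nonpos hYpos hce (by linarith)
      _ = N ^ ((1 - 7 * θ) * (-(δ * (1 / e) ^ 2))) := by rw [← Real.rpow_mul hNpos.le]
      _ ≤ _ := by
          apply Real.rpow_le_rpow_of_exponent_le hNone
          have h1 : 1 / 8 * (δ * (1 / e) ^ 2) ≤ (1 - 7 * θ) * (δ * (1 / e) ^ 2) :=
            mul_le_mul_of_nonneg_right (by linarith) hde
          have h2 : δ / 8 / e ^ 2 = 1 / 8 * (δ * (1 / e) ^ 2) := by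
            field_simp
          rw [h2]
          linarith
  have hM1 : (1 : ℝ) ≤ 5 * e := by linarith
  have hlogH2 : 3 + 2 * Real.log H ≤ 5 * e * (1 + Real.log N) := by
    nlinarith [mul_nonneg he0.le hL0]
  have h := shv_core (θ := θ) (C := C) (M := 5 * e) ha hC1 hM1 μ N T H
    ((⌈N ^ (1 - 7 * θ)⌉₊ : ℝ) ^ (-(δ * (1 / e) ^ 2))) X hN256 hH hceil (by positivity) hlogH2
    ?_ ?_ hX hsep hbig
  · refine h.trans ?_
    have e1 : 2 * C * a ^ 2 * (a + 1) * (5 * e) ≤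
        (256 + 2 * A ^ 2 * C + 2 * C * A ^ 2 * (A + 1) * 5) * e := by
      have h1 : 2 * C * a ^ 2 * (a + 1) * 5 ≤ 2 * C * A ^ 2 * (A + 1) * 5 := by
        gcongr
      have h2 : 2 * C * a ^ 2 * (a + 1) * 5 ≤
        256 + 2 * A ^ 2 * C + 2 * C * A ^ 2 * (A + 1) * 5 := by linarith
      calc 2 * C * a ^ 2 * (a + 1) * (5 * e) = 2 * C * a ^ 2 * (a + 1) * 5 * e := by ring
        _ ≤ _ := mul_le_mul_of_nonneg_right h2 he0.le
    have e2 : (1 + Real.log N) ^ 6 ≤ (1 + Real.log N) ^ 8 :=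
      pow_le_pow_right₀ (by linarith) (by norm_num)
    gcongr
  · have e3 : 2 * a ^ 2 * C ≤ 256 + 2 * A ^ 2 * C + 2 * C * A ^ 2 * (A + 1) * 5 := by
      have : 2 * a ^ 2 * C ≤ 2 * A ^ 2 * C := by gcongr
      linarith
    calc 2 * a ^ 2 * C * (1 + Real.log N) ^ 4 *
          (⌈N ^ (1 - 7 * θ)⌉₊ : ℝ) ^ (-(δ * (1 / e) ^ 2))
        ≤ (256 + 2 * A ^ 2 * C + 2 * C * A ^ 2 * (A + 1) * 5) *
          (1 + Real.log N) ^ 4 * N ^ (-(δ / 8 / e ^ 2)) := by gcongr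
      _ ≤ N ^ (δ / 8 / e ^ 2 - 2 * μ) * N ^ (-(δ / 8 / e ^ 2)) :=
          mul_le_mul_of_nonneg_right hsmall (Real.rpow_nonneg hNpos.le _)
      _ = _ := by
          rw [← Real.rpow_add hNpos]
          congr 1
          ring
  · intro u hu1 hu2
    exact hC _ _ H u (1 / e) hce2 hceil hu1 hu2 (by positivity)
      (by rw [div_le_one he0]; exact he) hHk

end Pool.Agent.H52.UV
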