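import Mathlib
import Pool.Agent.H48.UP.Classical
import Pool.Agent.H76.SV.Main
import Pool.Agent.H52.UV.SepHVK

/-!
# Main: zero density for uncrowded zeros in windows of Vinogradov-Korobov length
-/

set_option autoImplicit false

open Complex

namespace Pool.Agent.H52.UV

open Pool.Agent.H76.CR Pool.Agent.H52.Unc Pool.Agent.H76.SV

/-- the radii -/
private theorem eta_ok {ε L y η : ℝ} (hε : 0 < ε) (hL : 0 < L) (hη : η = 2 * ε / (3 * (L + 1)))
    (hη1 : η ≤ 1) (hy : 0 < y) (hy2 : y ≤ 1 / 2 - ε) :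
    (1 + η) ^ 2 * ((L + 1) * y) ≤ L * y + 1 / 2 := by
  have hL1 : 0 < L + 1 := by linarith
  have hη0 : 0 < η := by rw [hη]; positivity
  have h1 : η * (L + 1) = 2 * ε / 3 := by rw [hη]; field_simp
  have h2 : (1 + η) ^ 2 ≤ 1 + 3 * η := by nlinarith
  calc (1 + η) ^ 2 * ((L + 1) * y) ≤ (1 + 3 * η) * ((L + 1) * y) := by
        have : 0 ≤ (L + 1) * y := by positivity
        exact mul_le_mul_of_nonneg_right h2 this
    _ = L * y + y + 3 * (η * (L + 1)) * y := by ring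
    _ = L * y + y * (1 + 2 * ε) := by rw [h1]; ring
    _ ≤ L * y + 1 / 2 := by nlinarith

/-- consequences of the condition on `N` -/
private theorem facts {C W0 T N y : ℝ} (hW0 : 3 ≤ W0) (hC : Real.exp W0 ≤ C) (hT : C ≤ T)
    (hN : 1 ≤ N) (hy1 : y ≤ 1) (h : Real.log (T + N) ^ C ≤ N ^ y) :
    W0 ≤ Real.log (T + N) ∧ C * Real.log (Real.log (T + N)) ≤ y * Real.log N ∧
      1 ≤ Real.log (Real.log (T + N)) ∧ Real.log N ≤ Real.log (T + N) ∧
      Real.log (T + N) ≤ N := by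
  have hC0 : 0 < C := (Real.exp_pos W0).trans_le hC
  have hC1 : 1 ≤ C := (Real.one_le_exp (by linarith)).trans hC
  have hTN : 0 < T + N := by linarith
  have h1 : W0 ≤ Real.log (T + N) := by
    rw [Real.le_log_iff_exp_le hTN]
    linarith
  have hW : 0 < Real.log (T + N) := by linarith
  have h2 : 1 ≤ Real.log (Real.log (T + N)) := by
    rw [Real.le_log_iff_exp_le hW]
    have := Real.exp_one_lt_d9
    linarith
  refine ⟨h1, ?_, h2, Real.log_le_log (by linarith) (by linarith), ?_⟩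
  · have h3 := Real.log_le_log (Real.rpow_pos_of_pos hW C) h
    rwa [Real.log_rpow hW, Real.log_rpow (by linarith)] at h3
  · calc Real.log (T + N) = Real.log (T + N) ^ (1 : ℝ) := (Real.rpow_one _).symm
      _ ≤ Real.log (T + N) ^ C := Real.rpow_le_rpow_of_exponent_le (by linarith) hC1
      _ ≤ N ^ y := h
      _ ≤ N ^ (1 : ℝ) := Real.rpow_le_rpow_of_exponent_le hN hy1
      _ = N := Real.rpow_one N

/-- the detection scale -/
private theorem scale {θ ε N y : ℝ} (hε : 0 < ε) (hε1 : ε ≤ 1 / 4) (hθ : θ = ε / 56) (hN : 1 ≤ N)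
    (hy : 0 < y) :
    N ≤ N ^ (1 / (1 - 7 * θ)) ∧ N ^ (1 / (1 - 7 * θ)) ≤ N ^ (2 : ℝ) ∧
      (N ^ (1 / (1 - 7 * θ))) ^ (1 - 7 * θ) = N ∧
      (N ^ (1 / (1 - 7 * θ))) ^ (2 * ((1 + θ) * y)) ≤ N ^ ((2 + 3 * ε / 4) * y) ∧
      Real.log N ≤ Real.log (N ^ (1 / (1 - 7 * θ))) ∧
      Real.log (N ^ (1 / (1 - 7 * θ))) ≤ 2 * Real.log N := by
  have hN0 : 0 < N := by linarith
  have h7 : 0 < 1 - 7 * θ := by rw [hθ]; linarith
  have h1 : 1 ≤ 1 / (1 - 7 * θ) := by
    rw [le_div_iff₀ h7, hθ]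
    linarith
  have h2 : 1 / (1 - 7 * θ) ≤ 2 := by
    rw [div_le_iff₀ h7, hθ]
    linarith
  have hlog : 0 ≤ Real.log N := Real.log_nonneg hN
  refine ⟨?_, Real.rpow_le_rpow_of_exponent_le hN h2, ?_, ?_, ?_, ?_⟩
  · calc N = N ^ (1 : ℝ) := (Real.rpow_one N).symm
      _ ≤ _ := Real.rpow_le_rpow_of_exponent_le hN h1
  · rw [← Real.rpow_mul hN0.le, one_div, inv_mul_cancel₀ h7.ne', Real.rpow_one]
  · rw [← Real.rpow_mul hN0.le]
    apply Real.rpow_le_rpow_of_exponent_le hN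
    have h3 : 2 * (1 + θ) / (1 - 7 * θ) ≤ 2 + 3 * ε / 4 := by
      rw [div_le_iff₀ h7, hθ]
      nlinarith
    calc 1 / (1 - 7 * θ) * (2 * ((1 + θ) * y)) = 2 * (1 + θ) / (1 - 7 * θ) * y := by ring
      _ ≤ (2 + 3 * ε / 4) * y := mul_le_mul_of_nonneg_right h3 hy.le
  · rw [Real.log_rpow hN0]
    nlinarith
  · rw [Real.log_rpow hN0]
    exact mul_le_mul_of_nonneg_right h2 hlog

private theorem exp1 {ε σ : ℝ} (hε : 0 < ε) (hσ : 1 / 2 ≤ σ) :
    ε / 4 * (1 - σ) + (2 * σ - 1 - ε / 2) ≤ 1 - (2 + 3 * ε / 4) * (1 - σ) := by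
  have h : ε * (1 - σ) ≤ ε * (1 / 2) := mul_le_mul_of_nonneg_left (by linarith) hε.le
  linarith

/-- the exponents of the Vinogradov-Korobov windows -/
private theorem exp3 {ε θ δ c y : ℝ} (hε1 : ε ≤ 1 / 4) (hθ1 : θ ≤ 1 / 8) (hy : 0 < y)
    (hc : 0 < c) (hcδ : 4 * c ^ 2 ≤ δ) :
    ε / 4 * y ≤ δ / (c / √y) ^ 2 - 2 * ((1 + θ) * y) := by
  have h1 : ε * y ≤ 1 / 4 * y := mul_le_mul_of_nonneg_right hε1 hy.le
  have h2 : θ * y ≤ 1 / 8 * y := mul_le_mul_of_nonneg_right hθ1 hy.le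
  have h3 : δ / (c / √y) ^ 2 = δ / c ^ 2 * y := by
    rw [div_pow, Real.sq_sqrt hy.le]
    field_simp
  have h4 : 4 ≤ δ / c ^ 2 := by
    rw [le_div_iff₀ (by positivity)]
    exact hcδ
  have h5 : 4 * y ≤ δ / c ^ 2 * y := mul_le_mul_of_nonneg_right h4 hy.le
  rw [h3]
  linarith

private theorem mul_le_self' {L y : ℝ} (hL : 0 < L) (hy : y ≤ 1) : L * y ≤ L := by
  calc L * y ≤ L * 1 := mul_le_mul_of_nonneg_left hy hL.le
    _ = L := mul_one L

private theorem seen_cond {C5 C l v : ℝ} (hC5 : 1 ≤ C5) (hC : 3 * C5 ≤ C) (hl : 1 ≤ l)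
    (h : C * l ≤ v) : C5 * l + C5 ≤ v := by
  have h1 : 3 * C5 * l ≤ C * l := mul_le_mul_of_nonneg_right hC (by linarith)
  have h2 : C5 * 1 ≤ C5 * l := mul_le_mul_of_nonneg_left hl (by linarith)
  linarith

private theorem two_prod {C0 l lΛ : ℝ} (hC0 : 1 ≤ C0) (hl : 1 ≤ l) (h : lΛ ≤ 2 * l) :
    C0 * lΛ + C0 ≤ 3 * C0 * l := by
  have h1 : C0 * lΛ ≤ C0 * (2 * l) := mul_le_mul_of_nonneg_left h (by linarith)
  have h2 : C0 * 1 ≤ C0 * l := mul_le_mul_of_nonneg_left hl (by linarith)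
  linarith

/-- from separated points to zeros -/
private theorem core {θ η L ε c0 C0 : ℝ} (hε : 0 < ε) (hε1 : ε ≤ 1 / 4) (hθ : θ = ε / 56)
    (hL0 : 0 < L) (hη : η = 2 * ε / (3 * (L + 1))) (hη1 : η ≤ 1) (hc0 : 0 < c0) (hC0 : 1 ≤ C0)
    (hrare : ∀ (σ N T H Λ P : ℝ) (S : Finset ℂ), 1 / 2 + ε ≤ σ → σ < 1 →
      (1 + η) ^ 2 * (L * (1 - σ) + 1 - σ) ≤ L * (1 - σ) + 1 / 2 → C0 ≤ T → 1 ≤ N → 0 ≤ H →
      1 ≤ Λ → Real.log (T + H + N) ≤ Λ → C0 * Real.log Λ + C0 ≤ (1 - σ) * Real.log N → 0 ≤ P →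
      (∀ X : Finset ℝ, (∀ x ∈ X, T ≤ x ∧ x ≤ T + H) →
        (∀ x ∈ X, ∀ y ∈ X, x ≠ y → 1 ≤ |x - y|) →
        (∀ x ∈ X, ∃ k : ℕ, (k : ℝ) ≤ L * (1 - σ) * Real.log N ∧
          N ^ (-((1 + θ) * (1 - σ))) ≤
            (L * (1 - σ)) ^ (k + 1) * ‖tPoly θ (L * (1 - σ)) k N x‖) → (X.card : ℝ) ≤ P) →
      (∀ ρ ∈ S, riemannZeta ρ = 0 ∧ σ ≤ ρ.re ∧ T ≤ ρ.im ∧ ρ.im ≤ T + H ∧
        (rz (3 * (L * (1 - σ) + 1 - σ)) (ρ.re - η * (L * (1 - σ) + 1 - σ)) ρ : ℝ) <
          c0 * (1 - σ) * Real.log N) →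
      ∑ ρ ∈ S, (analyticOrderNatAt riemannZeta ρ : ℝ) ≤ C0 * P * Real.log (T + H + 3))
    {C W0 σ N T H B cA : ℝ} {S : Finset ℂ} (hW0 : 3 ≤ W0) (hCW : Real.exp W0 ≤ C)
    (hC1 : 3 * C0 ≤ C) (hC2 : 44 / ε ≤ C) (hC3 : 3 * (L + 1) ≤ C) (hcA : cA ≤ c0)
    (hσ : 1 / 2 + ε ≤ σ) (hσ1 : σ < 1) (hN : 1 ≤ N) (hT : C ≤ T) (hH : 0 ≤ H)
    (hTN : Real.log (T + H + N) ^ C ≤ N ^ (1 - σ))
    (hB : 0 ≤ B) (hBW : C0 * B * 6561 ≤ Real.log (T + H + N) ^ 2)
    (hsep : Sep θ L (1 - σ) (N ^ (1 / (1 - 7 * θ))) T H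
      (B * (1 + Real.log (N ^ (1 / (1 - 7 * θ)))) ^ 8 *
        (N ^ (1 / (1 - 7 * θ))) ^ (2 * ((1 + θ) * (1 - σ)))))
    (hS : ∀ ρ ∈ S, riemannZeta ρ = 0 ∧ σ ≤ ρ.re ∧ T ≤ ρ.im ∧ ρ.im ≤ T + H ∧
      (rz (3 * (L + 1) * (1 - σ)) (ρ.re - ε * (1 - σ)) ρ : ℝ) < cA * (1 - σ) * Real.log N) :
    ∑ ρ ∈ S, (analyticOrderNatAt riemannZeta ρ : ℝ) ≤ N ^ ((2 + ε) * (1 - σ)) := by
  have hy0 : 0 < 1 - σ := by linarith
  have hN0 : 0 < N := by linarith
  obtain ⟨f1, f2, f3, f4, f5⟩ := facts hW0 hCW (by linarith : C ≤ T + H) hN (by linarith) hTN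
  obtain ⟨s1, s2, s3, s4, s5, s6⟩ := scale hε hε1 hθ hN hy0
  set W := Real.log (T + H + N) with hW
  set N' := N ^ (1 / (1 - 7 * θ)) with hN'
  have hW3 : 3 ≤ W := hW0.trans f1
  have hWpos : 0 < W := by linarith
  have hN3 : 3 ≤ N := hW3.trans f5
  have hC3' : (3 : ℝ) ≤ C := by linarith
  have hT3 : 3 ≤ T := hC3'.trans hT
  have hLy : L * (1 - σ) + 1 - σ = (L + 1) * (1 - σ) := by ring
  have hηL : η * (L + 1) ≤ ε := by
    have h1 : η * (L + 1) = 2 * ε / 3 := by rw [hη]; field_simp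
    rw [h1]; linarith
  have hTN0 : 0 < T + H + N := by linarith
  have hlogH : Real.log (T + H + 3) ≤ W := by
    rw [hW]
    exact Real.log_le_log (by linarith) (by linarith)
  have hlogΛ : Real.log (2 * W) ≤ 2 * Real.log W := by
    rw [Real.log_mul (by norm_num) (by linarith)]
    have := Real.log_le_log (by norm_num) (by linarith : (2 : ℝ) ≤ W)
    linarith
  have hmain := hrare σ N' T H (2 * W)
    (B * (1 + Real.log N') ^ 8 * N' ^ (2 * ((1 + θ) * (1 - σ)))) S hσ hσ1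
    (by rw [hLy]; exact eta_ok hε hL0 hη hη1 hy0 (by linarith)) (by linarith)
    (hN.trans s1) hH
    (by linarith)
    (by
      have h1 : T + H + N' ≤ (T + H + N) ^ (2 : ℝ) := by
        have h2 : (T + H + N) ^ (2 : ℝ) = (T + H + N) * (T + H + N) := by
          rw [Real.rpow_two, sq]
        have h3 : N ^ (2 : ℝ) = N * N := by rw [Real.rpow_two, sq]
        rw [h2]
        rw [h3] at s2
        nlinarith
      have h4 : 2 * W = Real.log ((T + H + N) ^ (2 : ℝ)) := by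
        rw [Real.log_rpow hTN0]
      rw [h4]
      exact Real.log_le_log (by linarith [hN.trans s1]) h1)
    (by
      have h1 : C0 * Real.log (2 * W) + C0 ≤ 3 * C0 * Real.log W :=
        two_prod hC0 f3 hlogΛ
      have h2 : 3 * C0 * Real.log W ≤ C * Real.log W := by
        have : 0 ≤ Real.log W := by linarith
        exact mul_le_mul_of_nonneg_right hC1 this
      have h3 : (1 - σ) * Real.log N ≤ (1 - σ) * Real.log N' :=
        mul_le_mul_of_nonneg_left s5 hy0.le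
      linarith)
    (by
      have h1 : 0 ≤ N' := by linarith [hN.trans s1]
      have h2 : 0 ≤ Real.log N' := Real.log_nonneg (hN.trans s1)
      positivity)
    hsep
    (by
      intro ρ hρ
      obtain ⟨a1, a2, a3, a4, a5⟩ := hS ρ hρ
      refine ⟨a1, a2, a3, a4, lt_of_le_of_lt ?_ (lt_of_lt_of_le a5 ?_)⟩
      · have hρim : 3 * (L + 1) * (1 - σ) < |ρ.im| := by
          have h1 : 3 * (L + 1) * (1 - σ) < 3 * (L + 1) * 1 := by
            apply mul_lt_mul_of_pos_left _ (by linarith)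
            linarith
          have h2 : T ≤ |ρ.im| := a3.trans (le_abs_self _)
          linarith
        have := rz_mono (r := 3 * (L * (1 - σ) + 1 - σ)) (r' := 3 * (L + 1) * (1 - σ))
          (β := ρ.re - η * (L * (1 - σ) + 1 - σ)) (β' := ρ.re - ε * (1 - σ)) hρim
          (by rw [hLy]; linarith)
          (by
            rw [hLy]
            have : η * ((L + 1) * (1 - σ)) ≤ ε * (1 - σ) := by
              rw [← mul_assoc]
              exact mul_le_mul_of_nonneg_right hηL hy0.le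
            linarith)
        exact_mod_cast this
      · have h1 : cA * (1 - σ) ≤ c0 * (1 - σ) := mul_le_mul_of_nonneg_right hcA hy0.le
        have h2 : 0 ≤ Real.log N := Real.log_nonneg hN
        calc cA * (1 - σ) * Real.log N ≤ c0 * (1 - σ) * Real.log N :=
              mul_le_mul_of_nonneg_right h1 h2
          _ ≤ c0 * (1 - σ) * Real.log N' := by
              apply mul_le_mul_of_nonneg_left s5
              positivity)
  refine hmain.trans ?_
  have hlN : 0 ≤ Real.log N := Real.log_nonneg hN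
  have h8 : (1 + Real.log N') ^ 8 ≤ (3 * W) ^ 8 := by
    apply pow_le_pow_left₀ (by linarith)
    linarith
  have hNp : 0 < N' ^ (2 * ((1 + θ) * (1 - σ))) :=
    Real.rpow_pos_of_pos (by linarith) _
  have hab : W * W ^ 10 ≤ N ^ (ε / 4 * (1 - σ)) := by
    refine absorb (C := C) (W := W) 10 (by linarith) le_rfl ?_ (by positivity) hN0 hTN
    rw [div_le_iff₀ hε] at hC2
    push_cast
    linarith
  calc C0 * (B * (1 + Real.log N') ^ 8 * N' ^ (2 * ((1 + θ) * (1 - σ)))) *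
        Real.log (T + H + 3)
      ≤ C0 * (B * (3 * W) ^ 8 * N ^ ((2 + 3 * ε / 4) * (1 - σ))) * W := by
        have i1 : 0 ≤ Real.log (T + H + 3) := Real.log_nonneg (by linarith)
        gcongr
    _ = C0 * B * 6561 * W ^ 9 * N ^ ((2 + 3 * ε / 4) * (1 - σ)) := by ring
    _ ≤ W ^ 2 * W ^ 9 * N ^ ((2 + 3 * ε / 4) * (1 - σ)) := by
        gcongr
    _ = W * W ^ 10 * N ^ ((2 + 3 * ε / 4) * (1 - σ)) := by ring
    _ ≤ N ^ (ε / 4 * (1 - σ)) * N ^ ((2 + 3 * ε / 4) * (1 - σ)) := by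
        apply mul_le_mul_of_nonneg_right hab
        exact Real.rpow_nonneg hN0.le _
    _ = N ^ ((2 + ε) * (1 - σ)) := by
        rw [← Real.rpow_add hN0]
        congr 1
        ring

/-- windows of length at most `N` -/
private theorem win_one {θ ε L C1 : ℝ} (hε : 0 < ε) (hε1 : ε ≤ 1 / 4) (hθ : θ = ε / 56)
    (hL0 : 0 < L)
    (hsepM : ∀ (θ a μ N T : ℝ) (X : Finset ℝ), 0 < θ → θ ≤ 1 / 8 → 0 < a → a ≤ L → 2 ≤ N →
      (∀ x ∈ X, T ≤ x ∧ x ≤ T + N ^ (1 - 7 * θ)) →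
      (∀ x ∈ X, ∀ y ∈ X, x ≠ y → 1 ≤ |x - y|) →
      (∀ x ∈ X, ∃ k : ℕ, (k : ℝ) ≤ a * Real.log N ∧
        N ^ (-μ) ≤ a ^ (k + 1) * ‖tPoly θ a k N x‖) →
      (X.card : ℝ) ≤ C1 * (1 + Real.log N) ^ 8 * N ^ (2 * μ))
    {N T H y : ℝ} (hy : 0 < y) (hy1 : y ≤ 1) (hN : 2 ≤ N) (hHN : H ≤ N) :
    Sep θ L y (N ^ (1 / (1 - 7 * θ))) T H (C1 * (1 + Real.log (N ^ (1 / (1 - 7 * θ)))) ^ 8 *
        (N ^ (1 / (1 - 7 * θ))) ^ (2 * ((1 + θ) * y))) := by
  intro X hX1 hX2 hX3
  obtain ⟨s1, s2, s3, s4, s5, s6⟩ := scale hε hε1 hθ (by linarith : 1 ≤ N) hy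
  refine hsepM θ (L * y) ((1 + θ) * y) (N ^ (1 / (1 - 7 * θ))) T X (by rw [hθ]; positivity)
    (by rw [hθ]; linarith) (by positivity) (mul_le_self' hL0 hy1) (hN.trans s1) ?_ hX2 hX3
  intro x hx
  rw [s3]
  exact ⟨(hX1 x hx).1, by linarith [(hX1 x hx).2]⟩

theorem main1 (ε : ℝ) (hε : 0 < ε) (hε1 : ε ≤ 1 / 4) :
    ∃ K c C : ℝ, 0 < K ∧ 0 < c ∧ 1 ≤ C ∧
      (∀ σ N T H : ℝ, 1 / 2 + ε ≤ σ → σ < 1 → 1 ≤ N → C ≤ T → 0 ≤ H →
        Real.log (T + H + N) ^ C ≤ N ^ (1 - σ) →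
        H ≤ N ^ max (max 1 (4 * σ - 2 - ε)) (c / √(1 - σ)) →
        ∀ S : Finset ℂ, (∀ ρ ∈ S, riemannZeta ρ = 0 ∧ σ ≤ ρ.re ∧ T ≤ ρ.im ∧ ρ.im ≤ T + H) →
        ((∀ ρ ∈ S, (rz (K * (1 - σ)) (ρ.re - ε * (1 - σ)) ρ : ℝ) < c * (1 - σ) * Real.log N) ∨
          (∀ s : ℂ, σ - 2 * ε * (1 - σ) ≤ s.re → T - C ≤ s.im → s.im ≤ T + H + C →
            ‖riemannZeta s‖ ≤ N ^ (c * (1 - σ)))) →
        ∑ ρ ∈ S, (analyticOrderNatAt riemannZeta ρ : ℝ) ≤ N ^ ((2 + ε) * (1 - σ))) ∧
      (∀ (σ N : ℝ) (ρ : ℂ), 1 / 2 + ε ≤ σ → σ < 1 → 1 ≤ N → riemannZeta ρ = 0 → σ ≤ ρ.re →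
        C ≤ ρ.im → Real.log (ρ.im + N) ^ C ≤ N ^ (1 - σ) →
        c * (1 - σ) * Real.log N ≤ rz (K * (1 - σ)) (ρ.re - ε * (1 - σ)) ρ ∨
        ∃ M : ℕ, N ^ (1 - ε) ≤ M ∧ (M : ℝ) ≤ N ∧
          (M : ℝ) ^ (ρ.re - ε * (1 - σ)) ≤ ‖pSum M ρ.im‖) := by
  set θ : ℝ := ε / 56 with hθdef
  have hθ : 0 < θ := by positivity
  have hθ1 : θ ≤ 1 / 8 := by rw [hθdef]; linarith
  set L : ℝ := 4 / θ ^ 2 with hLdef
  have hL0 : 0 < L := by positivity
  have hL : 4 ≤ L * θ ^ 2 := by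
    rw [hLdef, div_mul_cancel₀ _ (by positivity : θ ^ 2 ≠ 0)]
  set η : ℝ := 2 * ε / (3 * (L + 1)) with hηdef
  have hη0 : 0 < η := by positivity
  have hη1 : η ≤ 1 := by
    rw [hηdef, div_le_one (by positivity)]
    linarith
  obtain ⟨c0, C0, hc0, hC0, hrare⟩ := rareV (ε := ε) hθ hθ1 hη0 hη1 hL hε
  obtain ⟨c5, C5, hc5, hC5, hseen⟩ := seenV hθ hθ1 hη0 hη1 hL
  obtain ⟨C1, hC1, hsepM⟩ := sepMV hL0
  obtain ⟨C2, hC2, hsepH⟩ := sepH2 hL0
  obtain ⟨C3, hC3, hpart⟩ := part_sumV (A := L) (ε := ε) hθ hL0 hε hε1 (by rw [hθdef]; linarith)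
  obtain ⟨δ, C6, hδ, hC6, hsepK⟩ := sepHVK hL0
  set cA : ℝ := min c0 c5 with hcA
  have hcA0 : 0 < cA := lt_min hc0 hc5
  obtain ⟨c', C4, hc', hC4, hlarge⟩ := largeV (K := 3 * (L + 1)) (ε := ε) (c := cA)
    (by positivity) hε (by linarith) hcA0
  set c1 : ℝ := min (1 / 2) (δ / 2) with hc1def
  have hc10 : 0 < c1 := lt_min (by norm_num) (by positivity)
  have hc1h : c1 ≤ 1 / 2 := min_le_left _ _
  have hc1δ : c1 ≤ δ / 2 := min_le_right _ _
  set cF : ℝ := min (min cA c') c1 with hcF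
  have hcF0 : 0 < cF := lt_min (lt_min hcA0 hc') hc10
  have hcFA : cF ≤ cA := (min_le_left _ _).trans (min_le_left _ _)
  have hcF' : cF ≤ c' := (min_le_left _ _).trans (min_le_right _ _)
  have hcF1 : cF ≤ c1 := min_le_right _ _
  have hcFδ : 4 * cF ^ 2 ≤ δ := by
    have h1 : cF * cF ≤ 1 / 2 * (δ / 2) :=
      mul_le_mul (hcF1.trans hc1h) (hcF1.trans hc1δ) hcF0.le (by norm_num)
    have h2 : cF ^ 2 = cF * cF := sq cF
    rw [h2]
    linarith
  set W0 : ℝ := C0 * (C1 + C2 + C6) * 6561 + 81 * (C2 + C6) + 16 * C3 + 3 with hW0def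
  have hC12 : 0 ≤ C0 * (C1 + C2 + C6) := by positivity
  have hW0 : 3 ≤ W0 := by
    rw [hW0def]
    linarith
  have hexp : 0 < Real.exp W0 := Real.exp_pos _
  have h40 : 0 < 44 / ε := by positivity
  set C : ℝ := Real.exp W0 + 3 * C0 + 3 * C5 + C4 + 44 / ε + 3 * (L + 1) with hCdef
  have hCW : Real.exp W0 ≤ C := by rw [hCdef]; linarith
  have hCC0 : 3 * C0 ≤ C := by rw [hCdef]; linarith
  have hCC5 : 3 * C5 ≤ C := by rw [hCdef]; linarith
  have hCC4 : C4 ≤ C := by rw [hCdef]; linarith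
  have hC40 : 44 / ε ≤ C := by rw [hCdef]; linarith
  have hCL : 3 * (L + 1) ≤ C := by rw [hCdef]; linarith
  have hC1' : 1 ≤ C := by linarith
  refine ⟨3 * (L + 1), cF, C, by positivity, hcF0, hC1', ?_, ?_⟩
  · intro σ N T H hσ hσ1 hN hT hH hTN hHN S hS hcase
    have hy0 : 0 < 1 - σ := by linarith
    have hN0 : 0 < N := by linarith
    obtain ⟨f1, f2, f3, f4, f5⟩ := facts hW0 hCW (by linarith : C ≤ T + H) hN (by linarith) hTN
    have hNbig : 3 ≤ N := by linarith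
    have hyN : C ≤ (1 - σ) * Real.log N := by
      have : C * 1 ≤ C * Real.log (Real.log (T + H + N)) :=
        mul_le_mul_of_nonneg_left f3 (by linarith)
      linarith
    have hlN0 : 0 < Real.log N := Real.log_pos (by linarith)
    -- the zeros of `S` are uncrowded in both cases
    have hS' : ∀ ρ ∈ S, riemannZeta ρ = 0 ∧ σ ≤ ρ.re ∧ T ≤ ρ.im ∧ ρ.im ≤ T + H ∧
      (rz (3 * (L + 1) * (1 - σ)) (ρ.re - ε * (1 - σ)) ρ : ℝ) < cA * (1 - σ) * Real.log N := by
      intro ρ hρ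
      obtain ⟨a1, a2, a3, a4⟩ := hS ρ hρ
      refine ⟨a1, a2, a3, a4, ?_⟩
      rcases hcase with hc | hc
      · refine lt_of_lt_of_le (hc ρ hρ) ?_
        have h1 : cF * (1 - σ) ≤ cA * (1 - σ) :=
          mul_le_mul_of_nonneg_right hcFA hy0.le
        exact mul_le_mul_of_nonneg_right h1 hlN0.le
      · by_contra hcon
        rw [not_lt] at hcon
        obtain ⟨s, hs1, hs2, hs3⟩ := hlarge ρ (1 - σ) N a1 hy0 (by linarith) (by linarith)
          (by
            have : T ≤ |ρ.im| := a3.trans (le_abs_self _)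
            linarith) hN (by linarith)
          (by
            have h1 : Real.log (Real.log N) ≤ Real.log (Real.log (T + H + N)) :=
              Real.log_le_log hlN0 f4
            have h2 : C4 * Real.log (Real.log N) ≤ C4 * Real.log (Real.log (T + H + N)) :=
              mul_le_mul_of_nonneg_left h1 (by linarith)
            have h3 : C4 * Real.log (Real.log (T + H + N)) ≤
                C * Real.log (Real.log (T + H + N)) :=
              mul_le_mul_of_nonneg_right hCC4 (by linarith)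
            linarith) hcon
        have him := (Complex.abs_im_le_norm (s - ρ)).trans hs2
        rw [Complex.sub_im, abs_le] at him
        have h5 := hc s (by linarith) (by linarith [him.1]) (by linarith [him.2])
        have h6 : N ^ (cF * (1 - σ)) ≤ N ^ (c' * (1 - σ)) := by
          apply Real.rpow_le_rpow_of_exponent_le hN
          exact mul_le_mul_of_nonneg_right hcF' hy0.le
        linarith
    obtain ⟨s1, s2, s3, s4, s5, s6⟩ := scale hε hε1 hθdef hN hy0
    have hlN'3 : 1 + Real.log (N ^ (1 / (1 - 7 * θ))) ≤ 3 * Real.log (T + H + N) := by linarith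
    have hlN'0 : 0 ≤ 1 + Real.log (N ^ (1 / (1 - 7 * θ))) := by linarith
    have hpow4 : (1 + Real.log (N ^ (1 / (1 - 7 * θ)))) ^ 4 ≤
        81 * Real.log (T + H + N) ^ 4 := by
      calc _ ≤ (3 * Real.log (T + H + N)) ^ 4 := pow_le_pow_left₀ hlN'0 hlN'3 4
        _ = _ := by ring
    have hN'0 : 0 < N ^ (1 / (1 - 7 * θ)) := by linarith
    have h5ε : (4 : ℝ) + 1 ≤ C * (ε / 4) := by
      rw [div_le_iff₀ hε] at hC40
      linarith
    have hW1 : 1 ≤ Real.log (T + H + N) := by linarith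
    have hWsq : Real.log (T + H + N) ≤ Real.log (T + H + N) ^ 2 := by nlinarith
    by_cases hHle : H ≤ N
    · -- short windows
      refine core hε hε1 hθdef hL0 hηdef hη1 hc0 hC0 hrare hW0 hCW hCC0 hC40 hCL
        (min_le_left _ _) hσ hσ1 hN hT hH hTN (B := C1) (by linarith) ?_ ?_ hS'
      · have h1 : C0 * C1 ≤ C0 * (C1 + C2 + C6) :=
          mul_le_mul_of_nonneg_left (by linarith) (by linarith)
        linarith
      · exact win_one hε hε1 hθdef hL0 hsepM hy0 (by linarith) (by linarith) hHle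
    · rw [not_le] at hHle
      have hH1 : 1 ≤ H := by linarith
      by_cases hcmp : cF / √(1 - σ) ≤ max 1 (4 * σ - 2 - ε)
      · -- second derivative test
        rw [max_eq_left hcmp] at hHN
        have h34 : 1 < 4 * σ - 2 - ε := by
          by_contra hcon
          rw [not_lt] at hcon
          rw [max_eq_left hcon, Real.rpow_one] at hHN
          linarith
        rw [max_eq_right h34.le] at hHN
        refine core hε hε1 hθdef hL0 hηdef hη1 hc0 hC0 hrare hW0 hCW hCC0 hC40 hCL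
          (min_le_left _ _) hσ hσ1 hN hT hH hTN (B := C2) (by linarith) ?_ ?_ hS'
        · have h1 : C0 * C2 ≤ C0 * (C1 + C2 + C6) :=
            mul_le_mul_of_nonneg_left (by linarith) (by linarith)
          linarith
        · intro X hX1 hX2 hX3
          refine hsepH θ (L * (1 - σ)) ((1 + θ) * (1 - σ)) (N ^ (1 / (1 - 7 * θ))) T H X hθ hθ1
            (by positivity) (mul_le_self' hL0 (by linarith)) (by positivity) (by linarith) hH1
            ?_ hX1 hX2 hX3
          have hab : 81 * C2 * Real.log (T + H + N) ^ 4 ≤ N ^ (ε / 4 * (1 - σ)) := by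
            refine absorb (C := C) (W := Real.log (T + H + N)) 4 (by linarith) (by linarith) ?_
              (by positivity) hN0 hTN
            push_cast
            exact h5ε
          have hsq : √H ≤ N ^ (2 * σ - 1 - ε / 2) := by
            rw [Real.sqrt_le_left (Real.rpow_nonneg hN0.le _), ← Real.rpow_natCast,
              ← Real.rpow_mul hN0.le]
            refine hHN.trans (le_of_eq ?_)
            congr 1
            push_cast
            ring
          have hrhs : N ^ (1 - (2 + 3 * ε / 4) * (1 - σ)) ≤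
              (N ^ (1 / (1 - 7 * θ))) ^ (1 - 7 * θ - 2 * ((1 + θ) * (1 - σ))) := by
            rw [Real.rpow_sub hN'0, s3, Real.rpow_sub hN0, Real.rpow_one]
            apply div_le_div_of_nonneg_left hN0.le (Real.rpow_pos_of_pos hN'0 _) s4
          refine le_trans ?_ hrhs
          calc C2 * (1 + Real.log (N ^ (1 / (1 - 7 * θ)))) ^ 4 * √H
              ≤ C2 * (81 * Real.log (T + H + N) ^ 4) * N ^ (2 * σ - 1 - ε / 2) := by
                gcongr
            _ = 81 * C2 * Real.log (T + H + N) ^ 4 * N ^ (2 * σ - 1 - ε / 2) := by ring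
            _ ≤ N ^ (ε / 4 * (1 - σ)) * N ^ (2 * σ - 1 - ε / 2) :=
                mul_le_mul_of_nonneg_right hab (Real.rpow_nonneg hN0.le _)
            _ = N ^ (ε / 4 * (1 - σ) + (2 * σ - 1 - ε / 2)) := (Real.rpow_add hN0 _ _).symm
            _ ≤ N ^ (1 - (2 + 3 * ε / 4) * (1 - σ)) :=
                Real.rpow_le_rpow_of_exponent_le hN (exp1 hε (by linarith))
      · -- Vinogradov-Korobov windows
        rw [not_le] at hcmp
        rw [max_eq_right hcmp.le] at hHN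
        set e : ℝ := cF / √(1 - σ) with hedef
        have he1 : 1 ≤ e := ((le_max_left _ _).trans_lt hcmp).le
        have hsqrt0 : 0 < √(1 - σ) := Real.sqrt_pos.2 hy0
        have heW : e ≤ Real.log (T + H + N) := by
          have h1 : 1 - σ ≤ √(1 - σ) := by
            rw [Real.le_sqrt hy0.le hy0.le]
            nlinarith
          have h2 : e ≤ 1 / (1 - σ) := by
            rw [hedef]
            exact div_le_div₀ zero_le_one (by linarith) hy0 h1
          have h3 : 1 / (1 - σ) ≤ Real.log N := by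
            rw [div_le_iff₀ hy0]
            linarith
          linarith
        refine core hε hε1 hθdef hL0 hηdef hη1 hc0 hC0 hrare hW0 hCW hCC0 hC40 hCL
          (min_le_left _ _) hσ hσ1 hN hT hH hTN (B := C6 * e) (by positivity) ?_ ?_ hS'
        · have h1 : C0 * C6 * 6561 ≤ Real.log (T + H + N) := by
            have h1 : C0 * C6 ≤ C0 * (C1 + C2 + C6) :=
              mul_le_mul_of_nonneg_left (by linarith) (by linarith)
            linarith
          calc C0 * (C6 * e) * 6561 = C0 * C6 * 6561 * e := by ring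
            _ ≤ Real.log (T + H + N) * Real.log (T + H + N) :=
                mul_le_mul h1 heW (by linarith) (by linarith)
            _ = _ := by ring
        · intro X hX1 hX2 hX3
          refine hsepK θ (L * (1 - σ)) ((1 + θ) * (1 - σ)) (N ^ (1 / (1 - 7 * θ))) T H e X hθ hθ1
            (by positivity) (mul_le_self' hL0 (by linarith)) (by positivity) (by linarith) hH1
            he1 ?_ ?_ hX1 hX2 hX3
          · rw [Real.rpow_mul hN'0.le, s3]
            exact hHN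
          have hab : 81 * C6 * Real.log (T + H + N) ^ 4 ≤ N ^ (ε / 4 * (1 - σ)) := by
            refine absorb (C := C) (W := Real.log (T + H + N)) 4 (by linarith) (by linarith) ?_
              (by positivity) hN0 hTN
            push_cast
            exact h5ε
          have hexp3 := exp3 hε1 hθ1 hy0 hcF0 hcFδ
          calc C6 * (1 + Real.log (N ^ (1 / (1 - 7 * θ)))) ^ 4
              ≤ C6 * (81 * Real.log (T + H + N) ^ 4) := by gcongr
            _ = 81 * C6 * Real.log (T + H + N) ^ 4 := by ring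
            _ ≤ N ^ (ε / 4 * (1 - σ)) := hab
            _ ≤ N ^ (δ / e ^ 2 - 2 * ((1 + θ) * (1 - σ))) :=
                Real.rpow_le_rpow_of_exponent_le hN hexp3
            _ ≤ (N ^ (1 / (1 - 7 * θ))) ^ (δ / e ^ 2 - 2 * ((1 + θ) * (1 - σ))) :=
                Real.rpow_le_rpow hN0.le s1 (le_trans (by positivity) hexp3)
  · -- visibility by primes
    intro σ N ρ hσ hσ1 hN hρ hre him hTN
    by_contra hcon
    push Not at hcon
    obtain ⟨hc, hM⟩ := hcon
    have hy0 : 0 < 1 - σ := by linarith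
    have hN0 : 0 < N := by linarith
    obtain ⟨f1, f2, f3, f4, f5⟩ := facts hW0 hCW him hN (by linarith) hTN
    have hlN0 : 0 < Real.log N := Real.log_pos (by linarith)
    have habs : |ρ.im| = ρ.im := abs_of_nonneg (by linarith)
    have hre1 : ρ.re < 1 := re_lt_one hρ
    have hLy : L * (1 - σ) + 1 - σ = (L + 1) * (1 - σ) := by ring
    have hηL : η * (L + 1) ≤ ε := by
      have h1 : η * (L + 1) = 2 * ε / 3 := by rw [hηdef]; field_simp
      rw [h1]; linarith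
    obtain ⟨k, hk, hbig⟩ := hseen σ N (Real.log (ρ.im + N)) ρ hσ1
      (by rw [hLy]; exact eta_ok hε hL0 hηdef hη1 hy0 (by linarith)) hρ hre
      (by rw [habs]; linarith) hN (by rw [habs])
      (seen_cond hC5 hCC5 f3 f2)
      (by
        refine lt_of_le_of_lt ?_ (lt_of_lt_of_le hc ?_)
        · have hρim : 3 * (L + 1) * (1 - σ) < |ρ.im| := by
            have h1 : 3 * (L + 1) * (1 - σ) < 3 * (L + 1) * 1 := by
              apply mul_lt_mul_of_pos_left _ (by linarith)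
              linarith
            rw [habs]
            linarith
          have := rz_mono (r := 3 * (L * (1 - σ) + 1 - σ)) (r' := 3 * (L + 1) * (1 - σ))
            (β := ρ.re - η * (L * (1 - σ) + 1 - σ)) (β' := ρ.re - ε * (1 - σ)) hρim
            (by rw [hLy]; linarith)
            (by
              rw [hLy]
              have : η * ((L + 1) * (1 - σ)) ≤ ε * (1 - σ) := by
                rw [← mul_assoc]
                exact mul_le_mul_of_nonneg_right hηL hy0.le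
              linarith)
          exact_mod_cast this
        · have h1 : cF * (1 - σ) ≤ c5 * (1 - σ) :=
            mul_le_mul_of_nonneg_right (hcFA.trans (min_le_right _ _)) hy0.le
          exact mul_le_mul_of_nonneg_right h1 hlN0.le)
    have hab : 16 * C3 * Real.log (ρ.im + N) ^ 4 ≤ N ^ (ε / 4 * (1 - σ)) := by
      refine absorb (C := C) (W := Real.log (ρ.im + N)) 4 (by linarith) (by linarith) ?_
        (by positivity) hN0 hTN
      rw [div_le_iff₀ hε] at hC40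
      push_cast
      linarith
    have hsmall := hpart (L * (1 - σ)) (1 - σ) ρ.re N ρ.im k (by positivity)
      (mul_le_self' hL0 (by linarith)) hy0
      (by linarith) (by linarith) hre1.le (by linarith) hN
      (by
        refine le_trans ?_ hab
        calc C3 * (1 + Real.log N) ^ 4 ≤ C3 * (2 * Real.log (ρ.im + N)) ^ 4 := by
              gcongr
              linarith
          _ = _ := by ring) hk (fun M h3 h4 => hM M h3 h4)
    have h5 : N ^ (-(1 - ρ.re) - ε / 4 * (1 - σ)) ≤ N ^ (-(1 - ρ.re) - θ * (1 - σ)) := by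
      apply Real.rpow_le_rpow_of_exponent_le hN
      have : θ * (1 - σ) ≤ ε / 4 * (1 - σ) := by
        apply mul_le_mul_of_nonneg_right _ hy0.le
        rw [hθdef]
        linarith
      linarith
    linarith

end Pool.Agent.H52.UV
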