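import Mathlib
import Pool.Agent.H52.UV.Cor
import Pool.Agent.H52.UV.Layer
import Pool.Agent.H52.UV.Main1

/-!
# Main: zero density for uncrowded zeros, with the Vinogradov-Korobov method

`main1` (windows `N^(c/√(1-σ))`, visibility by primes), `cor` (the best scale `N`) and `layer`
(the sum over all zeros).
-/

set_option autoImplicit false

open Complex

namespace Pool.Agent.H52.UV

open Pool.Agent.H52.Unc

private theorem rpow_down {C C' T N x : ℝ} (hT : 3 ≤ T) (hN : 1 ≤ N) (hCC : C' ≤ C)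
    (h : Real.log (T + N) ^ C ≤ x) : Real.log (T + N) ^ C' ≤ x := by
  refine (Real.rpow_le_rpow_of_exponent_le ?_ hCC).trans h
  rw [Real.le_log_iff_exp_le (by linarith)]
  have := Real.exp_one_lt_d9
  linarith

theorem main (ε : ℝ) (hε : 0 < ε) (hε1 : ε ≤ 1 / 4) :
    ∃ K c C : ℝ, 0 < K ∧ 0 < c ∧ 1 ≤ C ∧
      (∀ σ T H : ℝ, 1 / 2 + ε ≤ σ → σ < 1 → C ≤ T → 0 ≤ H →
        ∀ S : Finset ℂ, (∀ ρ ∈ S, riemannZeta ρ = 0 ∧ σ ≤ ρ.re ∧ T ≤ ρ.im ∧ ρ.im ≤ T + H) →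
        ∑ ρ ∈ S, (analyticOrderNatAt riemannZeta ρ : ℝ) *
            Real.exp (-(C * rz (K * (1 - σ)) (ρ.re - ε * (1 - σ)) ρ)) ≤
          Real.log (T + H) ^ C * (H + 1) ^ (C * (1 - σ) ^ (3 / 2 : ℝ))) ∧
      (∀ σ N T H : ℝ, 1 / 2 + ε ≤ σ → σ < 1 → 1 ≤ N → C ≤ T → 0 ≤ H →
        Real.log (T + H + N) ^ C ≤ N ^ (1 - σ) →
        H ≤ N ^ max (max 1 (4 * σ - 2 - ε)) (c / √(1 - σ)) →
        ∀ S : Finset ℂ, (∀ ρ ∈ S, riemannZeta ρ = 0 ∧ σ ≤ ρ.re ∧ T ≤ ρ.im ∧ ρ.im ≤ T + H) →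
        ((∀ ρ ∈ S, (rz (K * (1 - σ)) (ρ.re - ε * (1 - σ)) ρ : ℝ) < c * (1 - σ) * Real.log N) ∨
          (∀ s : ℂ, σ - 2 * ε * (1 - σ) ≤ s.re → T - C ≤ s.im → s.im ≤ T + H + C →
            ‖riemannZeta s‖ ≤ N ^ (c * (1 - σ)))) →
        ∑ ρ ∈ S, (analyticOrderNatAt riemannZeta ρ : ℝ) ≤ N ^ ((2 + ε) * (1 - σ))) ∧
      (∀ (σ N : ℝ) (ρ : ℂ), 1 / 2 + ε ≤ σ → σ < 1 → 1 ≤ N → riemannZeta ρ = 0 → σ ≤ ρ.re →
        C ≤ ρ.im → Real.log (ρ.im + N) ^ C ≤ N ^ (1 - σ) →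
        c * (1 - σ) * Real.log N ≤ rz (K * (1 - σ)) (ρ.re - ε * (1 - σ)) ρ ∨
        ∃ M : ℕ, N ^ (1 - ε) ≤ M ∧ (M : ℝ) ≤ N ∧
          (M : ℝ) ^ (ρ.re - ε * (1 - σ)) ≤ ‖pSum M ρ.im‖) := by
  obtain ⟨K, c, C1, hK, hc, hC1, h1, h2⟩ := main1 ε hε hε1
  obtain ⟨C2, hC2, h3⟩ := cor hε hε1 hc hC1 h1
  obtain ⟨C3, hC3, h4⟩ := layer (ε := ε) (K := K) hC2 h3
  refine ⟨K, c, C1 + C3 + 3, hK, hc, by linarith, ?_, ?_, ?_⟩
  · intro σ T H hσ hσ1 hT hH S hS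
    have hl : 1 ≤ Real.log (T + H) := by
      rw [Real.le_log_iff_exp_le (by linarith)]
      have := Real.exp_one_lt_d9
      linarith
    have hy : 0 ≤ (1 - σ) ^ (3 / 2 : ℝ) := Real.rpow_nonneg (by linarith) _
    have i1 : ∑ ρ ∈ S, (analyticOrderNatAt riemannZeta ρ : ℝ) *
        Real.exp (-((C1 + C3 + 3) * rz (K * (1 - σ)) (ρ.re - ε * (1 - σ)) ρ)) ≤
        ∑ ρ ∈ S, (analyticOrderNatAt riemannZeta ρ : ℝ) *
          Real.exp (-(C3 * rz (K * (1 - σ)) (ρ.re - ε * (1 - σ)) ρ)) := by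
      refine Finset.sum_le_sum fun ρ _ => ?_
      apply mul_le_mul_of_nonneg_left _ (Nat.cast_nonneg _)
      apply Real.exp_le_exp.2
      have : C3 * (rz (K * (1 - σ)) (ρ.re - ε * (1 - σ)) ρ : ℝ) ≤
          (C1 + C3 + 3) * rz (K * (1 - σ)) (ρ.re - ε * (1 - σ)) ρ :=
        mul_le_mul_of_nonneg_right (by linarith) (Nat.cast_nonneg _)
      linarith
    refine i1.trans ((h4 σ T H hσ hσ1 (by linarith) hH S hS).trans ?_)
    have i2 : Real.log (T + H) ^ C3 ≤ Real.log (T + H) ^ (C1 + C3 + 3) :=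
      Real.rpow_le_rpow_of_exponent_le hl (by linarith)
    have i3 : (H + 1) ^ (C3 * (1 - σ) ^ (3 / 2 : ℝ)) ≤
        (H + 1) ^ ((C1 + C3 + 3) * (1 - σ) ^ (3 / 2 : ℝ)) :=
      Real.rpow_le_rpow_of_exponent_le (by linarith) (mul_le_mul_of_nonneg_right (by linarith) hy)
    exact mul_le_mul i2 i3 (Real.rpow_nonneg (by linarith) _)
      (Real.rpow_nonneg (by linarith) _)
  · intro σ N T H hσ hσ1 hN hT hH hTN hHN S hS hcase
    refine h1 σ N T H hσ hσ1 hN (by linarith) hH ?_ hHN S hS ?_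
    · exact rpow_down (by linarith) hN (by linarith) hTN
    · rcases hcase with hc1 | hc1
      · exact Or.inl hc1
      · exact Or.inr fun s hs1 hs2 hs3 => hc1 s hs1 (by linarith) (by linarith)
  · intro σ N ρ hσ hσ1 hN hρ hre him hTN
    exact h2 σ N ρ hσ hσ1 hN hρ hre (by linarith)
      (rpow_down (by linarith) hN (by linarith) hTN)

end Pool.Agent.H52.UV
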